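import Mathlib

/-!
# Locally compact king spaces are compact (MP_abcfaf_gt, Q1)
-/

open Set Filter Topology

namespace Pool.Agent.Results.MP_abcfaf_gt.LocallyCompactKing

/-- A weak selection on `X`, written as a symmetric function of two variables choosing one of its
two arguments (so `φ a a = a`; off the diagonal it is exactly a choice function on pairs). -/
def IsWeakSelection {X : Type*} (φ : X → X → X) : Prop :=
  (∀ a b, φ a b = φ b a) ∧ ∀ a b, φ a b = a ∨ φ a b = b

/-- Continuity of a weak selection. -/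
def ContinuousSelection {X : Type*} [TopologicalSpace X] (φ : X → X → X) : Prop :=
  ∀ a b : X, a ≠ b → ∀ W : Set X, IsOpen W → φ a b ∈ W →
    ∃ U V : Set X, IsOpen U ∧ IsOpen V ∧ a ∈ U ∧ b ∈ V ∧
      ∀ a' ∈ U, ∀ b' ∈ V, a' ≠ b' → φ a' b' ∈ W

/-- `a →_φ b`. -/
def Arrow {X : Type*} (φ : X → X → X) (a b : X) : Prop := a = b ∨ (a ≠ b ∧ φ a b = b)

/-- `z` is a `φ`-king. -/
def IsKing {X : Type*} (φ : X → X → X) (z : X) : Prop :=
  ∀ x, ∃ y, Arrow φ z y ∧ Arrow φ y x

/-- `X` is a king space: every continuous weak selection has a king. -/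
def KingSpace (X : Type*) [TopologicalSpace X] : Prop :=
  ∀ φ : X → X → X, IsWeakSelection φ → ContinuousSelection φ → ∃ z, IsKing φ z

/-! ## Relations -/

/-- A relation behaving like the arrow of a continuous weak selection. -/
structure Good {X : Type*} [TopologicalSpace X] (R : X → X → Prop) : Prop where
  tot : ∀ a b, a ≠ b → (R a b ↔ ¬ R b a)
  loc : ∀ a b, a ≠ b → R a b → ∀ᶠ p : X × X in 𝓝 (a, b), R p.1 p.2

/-- Kings of a relation. -/
def Kg {X : Type*} (R : X → X → Prop) (z : X) : Prop :=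
  ∀ x, ∃ y, (z = y ∨ R z y) ∧ (y = x ∨ R y x)

/-- Every good relation has a king. -/
def Roy (X : Type*) [TopologicalSpace X] : Prop :=
  ∀ R : X → X → Prop, Good R → ∃ z, Kg R z

variable {X : Type*} [TopologicalSpace X]

theorem Good.op {R : X → X → Prop} (hR : Good R) : Good (fun a b => R b a) := by
  constructor
  · intro a b hab
    exact hR.tot b a hab.symm
  · intro a b hab h
    have := hR.loc b a hab.symm h
    exact (continuous_swap.tendsto (a, b)).eventually this

open Classical in
theorem roy_of_kingSpace (hX : KingSpace X) : Roy X := by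
  intro R hR
  let φ : X → X → X := fun a b => if a = b then a else if R a b then b else a
  have h1 : ∀ a b, a ≠ b → R a b → φ a b = b := by
    intro a b hab h
    simp only [φ, if_neg hab, if_pos h]
  have h2 : ∀ a b, a ≠ b → ¬ R a b → φ a b = a := by
    intro a b hab h
    simp only [φ, if_neg hab, if_neg h]
  have hsel : IsWeakSelection φ := by
    constructor
    · intro a b
      by_cases hab : a = b
      · subst hab; rfl
      · by_cases h : R a b
        · rw [h1 a b hab h, h2 b a (Ne.symm hab) ((hR.tot a b hab).1 h)]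
        · have h' : R b a := by
            by_contra h''
            exact h ((hR.tot a b hab).2 h'')
          rw [h2 a b hab h, h1 b a (Ne.symm hab) h']
    · intro a b
      by_cases hab : a = b
      · subst hab; left; simp [φ]
      · by_cases h : R a b
        · right; exact h1 a b hab h
        · left; exact h2 a b hab h
  have hcont : ContinuousSelection φ := by
    intro a b hab W hW hWab
    by_cases h : R a b
    · rw [h1 a b hab h] at hWab
      have e1 := hR.loc a b hab h
      have e2 : ∀ᶠ p : X × X in 𝓝 (a, b), p.2 ∈ W :=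
        (continuous_snd.tendsto (a, b)).eventually (hW.mem_nhds hWab)
      obtain ⟨U, V, hU, ha, hV, hb, hUV⟩ := mem_nhds_prod_iff'.1 (e1.and e2)
      refine ⟨U, V, hU, hV, ha, hb, ?_⟩
      intro a' ha' b' hb' hne
      have h3 := hUV (mk_mem_prod ha' hb')
      have h4 : R a' b' := h3.1
      have h5 : b' ∈ W := h3.2
      rw [h1 a' b' hne h4]
      exact h5
    · have h' : R b a := by
        by_contra h''
        exact h ((hR.tot a b hab).2 h'')
      rw [h2 a b hab h] at hWab
      have e1 := hR.op.loc a b hab h'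
      have e2 : ∀ᶠ p : X × X in 𝓝 (a, b), p.1 ∈ W :=
        (continuous_fst.tendsto (a, b)).eventually (hW.mem_nhds hWab)
      obtain ⟨U, V, hU, ha, hV, hb, hUV⟩ := mem_nhds_prod_iff'.1 (e1.and e2)
      refine ⟨U, V, hU, hV, ha, hb, ?_⟩
      intro a' ha' b' hb' hne
      have h3 := hUV (mk_mem_prod ha' hb')
      have h4 : R b' a' := h3.1
      have h5 : a' ∈ W := h3.2
      have h6 : ¬ R a' b' := fun h7 => (hR.tot a' b' hne).1 h7 h4
      rw [h2 a' b' hne h6]
      exact h5
  obtain ⟨z, hz⟩ := hX φ hsel hcont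
  have key : ∀ a b, Arrow φ a b → a = b ∨ R a b := by
    intro a b h
    rcases h with h | ⟨hne, h⟩
    · exact Or.inl h
    · right
      by_contra h'
      rw [h2 a b hne h'] at h
      exact hne h
  refine ⟨z, fun x => ?_⟩
  obtain ⟨y, hy1, hy2⟩ := hz x
  exact ⟨y, key _ _ hy1, key _ _ hy2⟩

theorem good_of_selection [T2Space X] {φ : X → X → X} (hs : IsWeakSelection φ)
    (hc : ContinuousSelection φ) : Good (fun a b => φ a b = b) := by
  constructor
  · intro a b hab
    constructor
    · intro h h'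
      apply hab
      rw [← h', hs.1 b a, h]
    · intro h
      rcases hs.2 a b with h' | h'
      · exfalso
        apply h
        rw [hs.1 b a, h']
      · exact h'
  · intro a b hab h
    obtain ⟨A, B, hA, hB, haA, hbB, hAB⟩ := t2_separation hab
    obtain ⟨U, V, hU, hV, ha, hb, hUV⟩ := hc a b hab B hB (by rw [h]; exact hbB)
    have e1 : ∀ᶠ p : X × X in 𝓝 (a, b), p.1 ∈ U ∩ A :=
      (continuous_fst.tendsto (a, b)).eventually ((hU.inter hA).mem_nhds ⟨ha, haA⟩)
    have e2 : ∀ᶠ p : X × X in 𝓝 (a, b), p.2 ∈ V ∩ B :=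
      (continuous_snd.tendsto (a, b)).eventually ((hV.inter hB).mem_nhds ⟨hb, hbB⟩)
    filter_upwards [e1, e2] with p hp1 hp2
    have hne : p.1 ≠ p.2 := by
      intro h'
      exact (Set.disjoint_left.1 hAB) hp1.2 (h' ▸ hp2.2)
    have h3 := hUV p.1 hp1.1 p.2 hp2.1 hne
    rcases hs.2 p.1 p.2 with h' | h'
    · rw [h'] at h3
      exact absurd h3 ((Set.disjoint_left.1 hAB) hp1.2)
    · exact h'

/-! ## Glueing -/

/-- Points of larger level beat points of smaller level. -/
def glue (ν : X → ℕ) (R : X → X → Prop) : X → X → Prop :=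
  fun a b => (ν a = ν b ∧ R a b) ∨ ν b < ν a

theorem good_glue {ν : X → ℕ} (hν : IsLocallyConstant ν) {R : X → X → Prop} (hR : Good R) :
    Good (glue ν R) := by
  have hev : ∀ a, ∀ᶠ x in 𝓝 a, ν x = ν a := fun a => hν.eventually_eq a
  constructor
  · intro a b hab
    have h0 := hR.tot a b hab
    unfold glue
    rcases lt_trichotomy (ν a) (ν b) with h | h | h
    · constructor
      · rintro (⟨h', _⟩ | h')
        · omega
        · omega
      · intro h'
        exact absurd (Or.inr h) h'
    · constructor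
      · rintro (⟨_, h'⟩ | h')
        · rintro (⟨_, h''⟩ | h'')
          · exact h0.1 h' h''
          · omega
        · omega
      · intro h'
        left
        refine ⟨h, h0.2 fun h'' => h' (Or.inl ⟨h.symm, h''⟩)⟩
    · constructor
      · rintro _ (⟨h', _⟩ | h')
        · omega
        · omega
      · intro _
        exact Or.inr h
  · intro a b hab h
    have h1 : ∀ᶠ p : X × X in 𝓝 (a, b), ν p.1 = ν a :=
      (continuous_fst.tendsto (a, b)).eventually (hev a)
    have h2 : ∀ᶠ p : X × X in 𝓝 (a, b), ν p.2 = ν b :=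
      (continuous_snd.tendsto (a, b)).eventually (hev b)
    rcases h with ⟨h, h'⟩ | h
    · filter_upwards [h1, h2, hR.loc a b hab h'] with p hp hq hp'
      left
      exact ⟨by rw [hp, hq, h], hp'⟩
    · filter_upwards [h1, h2] with p hp hq
      right
      rw [hp, hq]
      exact h

omit [TopologicalSpace X] in
theorem glue_le {ν : X → ℕ} {R : X → X → Prop} {a b : X} (h : a = b ∨ glue ν R a b) :
    ν b ≤ ν a := by
  rcases h with h | ⟨h, _⟩ | h
  · rw [h]
  · exact h.ge
  · exact h.le

/-- Every locally constant function to the natural numbers is bounded. -/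
def Bd (X : Type*) [TopologicalSpace X] : Prop :=
  ∀ ν : X → ℕ, IsLocallyConstant ν → ∃ N, ∀ x, ν x ≤ N

theorem bd_of_roy (hX : Roy X) {R : X → X → Prop} (hR : Good R) : Bd X := by
  intro ν hν
  obtain ⟨z, hz⟩ := hX _ (good_glue hν hR)
  refine ⟨ν z, fun x => ?_⟩
  obtain ⟨y, hy1, hy2⟩ := hz x
  exact (glue_le hy2).trans (glue_le hy1)

open Classical in
/-- The indicator level of a clopen set. -/
noncomputable def ind (Z : Set X) : X → ℕ := fun x => if x ∈ Z then 1 else 0

omit [TopologicalSpace X] in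
theorem ind_pos {Z : Set X} {x : X} (h : x ∈ Z) : ind Z x = 1 := by
  unfold ind; rw [if_pos h]

omit [TopologicalSpace X] in
theorem ind_neg {Z : Set X} {x : X} (h : x ∉ Z) : ind Z x = 0 := by
  unfold ind; rw [if_neg h]

omit [TopologicalSpace X] in
theorem mem_of_ind {Z : Set X} {x : X} (h : 1 ≤ ind Z x) : x ∈ Z := by
  by_contra h'
  rw [ind_neg h'] at h
  omega

theorem ind_lc {Z : Set X} (hZ : IsClopen Z) : IsLocallyConstant (ind Z) := by
  rw [IsLocallyConstant.iff_eventually_eq]
  intro x
  by_cases h : x ∈ Z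
  · filter_upwards [hZ.isOpen.mem_nhds h] with y hy
    rw [ind_pos h, ind_pos hy]
  · filter_upwards [hZ.compl.isOpen.mem_nhds h] with y hy
    rw [ind_neg h, ind_neg hy]

theorem king_in (hX : Roy X) {R : X → X → Prop} (hR : Good R) {Z : Set X} (hZ : IsClopen Z)
    (hne : Z.Nonempty) :
    ∃ z ∈ Z, ∀ x ∈ Z, ∃ y ∈ Z, (z = y ∨ R z y) ∧ (y = x ∨ R y x) := by
  obtain ⟨z, hz⟩ := hX _ (good_glue (ind_lc hZ) hR)
  obtain ⟨c, hc⟩ := hne
  have key : ∀ x ∈ Z, ∀ y, (z = y ∨ glue (ind Z) R z y) → (y = x ∨ glue (ind Z) R y x) →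
      z ∈ Z ∧ y ∈ Z := by
    intro x hx y hy1 hy2
    have h1 := glue_le hy1
    have h2 := glue_le hy2
    rw [ind_pos hx] at h2
    exact ⟨mem_of_ind (h2.trans h1), mem_of_ind h2⟩
  have hzZ : z ∈ Z := by
    obtain ⟨y, hy1, hy2⟩ := hz c
    exact (key c hc y hy1 hy2).1
  have key2 : ∀ a ∈ Z, ∀ b ∈ Z, (a = b ∨ glue (ind Z) R a b) → a = b ∨ R a b := by
    intro a ha b hb h
    rcases h with h | ⟨_, h⟩ | h
    · exact Or.inl h
    · exact Or.inr h
    · rw [ind_pos ha, ind_pos hb] at h
      omega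
  refine ⟨z, hzZ, fun x hx => ?_⟩
  obtain ⟨y, hy1, hy2⟩ := hz x
  have hy := (key x hx y hy1 hy2).2
  exact ⟨y, hy, key2 _ hzZ _ hy hy1, key2 _ hy _ hx hy2⟩

/-! ## Local behaviour -/

theorem good_ev [T2Space X] {R : X → X → Prop} (hR : Good R) {a b : X} (hab : a ≠ b) :
    ∀ᶠ q : X × X in 𝓝 (a, b), (R q.1 q.2 ↔ R a b) := by
  by_cases h : R a b
  · filter_upwards [hR.loc a b hab h] with q hq
    exact ⟨fun _ => h, fun _ => hq⟩
  · have h' : R b a := by
      by_contra h''
      exact h ((hR.tot a b hab).2 h'')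
    have hne : ∀ᶠ q : X × X in 𝓝 (a, b), q.1 ≠ q.2 :=
      (isOpen_ne_fun continuous_fst continuous_snd).mem_nhds hab
    filter_upwards [hR.op.loc a b hab h', hne] with q hq hq'
    exact ⟨fun h3 => absurd hq ((hR.tot _ _ hq').1 h3), fun h3 => absurd h3 h⟩

theorem ev_right [T2Space X] {R : X → X → Prop} (hR : Good R) {a b : X} (hab : a ≠ b) :
    ∀ᶠ b' in 𝓝 b, (R a b' ↔ R a b) := by
  have h := good_ev hR hab
  have hc : Tendsto (fun b' => (a, b')) (𝓝 b) (𝓝 (a, b)) :=
    (Continuous.prodMk_right a).tendsto b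
  exact hc.eventually h

theorem fin_range (hB : Bd X) {T : Type*} {g : X → T} (hg : IsLocallyConstant g) :
    (range g).Finite := by
  by_contra h
  have hinf : (range g).Infinite := h
  let e := hinf.natEmbedding
  have hinj : Function.Injective (fun n => (e n : T)) :=
    Subtype.val_injective.comp e.injective
  let F : T → ℕ := Function.invFun (fun n => (e n : T))
  have hF : ∀ n, F (e n) = n := fun n => Function.leftInverse_invFun hinj n
  obtain ⟨N, hN⟩ := hB (F ∘ g) (hg.comp F)
  obtain ⟨x, hx⟩ := (e (N + 1)).2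
  have h1 := hN x
  rw [Function.comp_apply, hx, hF] at h1
  omega

open Classical in
theorem uniform_nhd [T2Space X] (hB : Bd X) {R : X → X → Prop} (hR : Good R) {W : Set X}
    (hW : IsClopen W) (hWc : IsCompact W) {p : X} (hp : p ∈ W) :
    ∃ P : Set X, IsClopen P ∧ p ∈ P ∧ P ⊆ W ∧ ∀ x ∉ W, ∀ w ∈ P, (R x w ↔ R x p) := by
  let τ : X → Set X := fun x => if x ∈ W then W else {w | w ∈ W ∧ (R x w ↔ R x p)}
  have hτ1 : ∀ x ∈ W, τ x = W := fun x hx => if_pos hx
  have hτ2 : ∀ x ∉ W, τ x = {w | w ∈ W ∧ (R x w ↔ R x p)} := fun x hx => if_neg hx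
  have hclop : ∀ x, IsClopen (τ x) := by
    intro x
    by_cases hx : x ∈ W
    · rw [hτ1 x hx]; exact hW
    · rw [hτ2 x hx]
      have hop : IsOpen {w | w ∈ W ∧ (R x w ↔ R x p)} := by
        rw [isOpen_iff_eventually]
        rintro w ⟨hw, hw'⟩
        have hne : x ≠ w := fun h => hx (h ▸ hw)
        filter_upwards [hW.isOpen.mem_nhds hw, ev_right hR hne] with w' h1 h2
        exact ⟨h1, h2.trans hw'⟩
      have hcl : IsOpen {w | w ∈ W ∧ (R x w ↔ R x p)}ᶜ := by
        rw [isOpen_iff_eventually]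
        intro w hw
        by_cases hwW : w ∈ W
        · have hne : x ≠ w := fun h => hx (h ▸ hwW)
          filter_upwards [hW.isOpen.mem_nhds hwW, ev_right hR hne] with w' h1 h2
          rintro ⟨_, h4⟩
          exact hw ⟨hwW, h2.symm.trans h4⟩
        · filter_upwards [hW.compl.isOpen.mem_nhds hwW] with w' h1
          rintro ⟨h4, _⟩
          exact h1 h4
      exact ⟨isOpen_compl_iff.1 hcl, hop⟩
  have hlc : IsLocallyConstant τ := by
    rw [IsLocallyConstant.iff_eventually_eq]
    intro x
    by_cases hx : x ∈ W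
    · filter_upwards [hW.isOpen.mem_nhds hx] with y hy
      rw [hτ1 x hx, hτ1 y hy]
    · have h1 : ∀ w ∈ W, ∀ᶠ q : X × X in 𝓝 (x, w), (R q.1 q.2 ↔ R x q.2) := by
        intro w hw
        have hne : x ≠ w := fun h => hx (h ▸ hw)
        have e2 : ∀ᶠ q : X × X in 𝓝 (x, w), (R x q.2 ↔ R x w) :=
          (continuous_snd.tendsto (x, w)).eventually (ev_right hR hne)
        filter_upwards [good_ev hR hne, e2] with q h3 h4
        exact h3.trans h4.symm
      have h2 : ∀ᶠ y in 𝓝 x, ∀ w ∈ W, (R y w ↔ R x w) :=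
        hWc.eventually_forall_of_forall_eventually h1
      filter_upwards [h2, hW.compl.isOpen.mem_nhds hx] with y hy hyW
      rw [hτ2 x hx, hτ2 y hyW]
      ext w
      constructor
      · rintro ⟨hw, hw'⟩
        exact ⟨hw, (hy w hw).symm.trans (hw'.trans (hy p hp))⟩
      · rintro ⟨hw, hw'⟩
        exact ⟨hw, (hy w hw).trans (hw'.trans (hy p hp).symm)⟩
  have hfin := fin_range hB hlc
  refine ⟨W ∩ ⋂ S ∈ range τ, S, ?_, ?_, inter_subset_left, ?_⟩
  · refine hW.inter (hfin.isClopen_biInter ?_)
    rintro S ⟨x, rfl⟩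
    exact hclop x
  · refine ⟨hp, ?_⟩
    simp only [mem_iInter]
    rintro S ⟨x, rfl⟩
    by_cases hx : x ∈ W
    · rw [hτ1 x hx]; exact hp
    · rw [hτ2 x hx]; exact ⟨hp, Iff.rfl⟩
  · rintro x hx w ⟨_, hw⟩
    simp only [mem_iInter] at hw
    have h1 := hw (τ x) ⟨x, rfl⟩
    rw [hτ2 x hx] at h1
    exact h1.2

/-- Every point has a compact clopen neighbourhood. -/
def LCC (X : Type*) [TopologicalSpace X] : Prop :=
  ∀ x : X, ∃ W : Set X, IsClopen W ∧ IsCompact W ∧ x ∈ W

open Classical in
theorem finite_type [T2Space X] (hB : Bd X) (hL : LCC X) {R : X → X → Prop} (hR : Good R)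
    {D : Set X} (hD : IsClopen D) :
    ∃ F : Set X, F.Finite ∧ F ⊆ D ∧ ∀ w ∈ D, ∃ p ∈ F, ∀ x ∉ D, (R x w ↔ R x p) := by
  let τ : X → Set X := fun w => if w ∈ D then {x | x ∉ D ∧ R x w} else ∅
  have hτ1 : ∀ w ∈ D, τ w = {x | x ∉ D ∧ R x w} := fun x hx => if_pos hx
  have hτ2 : ∀ w ∉ D, τ w = ∅ := fun x hx => if_neg hx
  have hlc : IsLocallyConstant τ := by
    rw [IsLocallyConstant.iff_eventually_eq]
    intro w
    by_cases hw : w ∈ D
    · obtain ⟨W, hW, hWc, hwW⟩ := hL w
      obtain ⟨P, hP, hwP, hPW, hPu⟩ := uniform_nhd hB hR (hW.inter hD) (hWc.inter_right hD.isClosed)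
        (p := w) ⟨hwW, hw⟩
      filter_upwards [hP.isOpen.mem_nhds hwP] with y hy
      rw [hτ1 w hw, hτ1 y (hPW hy).2]
      ext x
      constructor
      · rintro ⟨h1, h2⟩
        exact ⟨h1, (hPu x (fun h => h1 h.2) y hy).1 h2⟩
      · rintro ⟨h1, h2⟩
        exact ⟨h1, (hPu x (fun h => h1 h.2) y hy).2 h2⟩
    · filter_upwards [hD.compl.isOpen.mem_nhds hw] with y hy
      rw [hτ2 w hw, hτ2 y hy]
  have hfin := fin_range hB hlc
  obtain ⟨F, hFD, hF⟩ := Set.exists_subset_bijOn D τ
  refine ⟨F, ?_, hFD, ?_⟩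
  · have h1 : (τ '' D).Finite := hfin.subset (image_subset_range _ _)
    exact (hF.finite_iff_finite).2 h1
  · intro w hw
    obtain ⟨p, hp, hpw⟩ := hF.surjOn (mem_image_of_mem τ hw)
    refine ⟨p, hp, fun x hx => ?_⟩
    rw [hτ1 w hw, hτ1 p (hFD hp)] at hpw
    have h1 : x ∈ {x | x ∉ D ∧ R x p} ↔ x ∈ {x | x ∉ D ∧ R x w} := by rw [hpw]
    constructor
    · intro h2
      exact (h1.2 ⟨hx, h2⟩).2
    · intro h2
      exact (h1.1 ⟨hx, h2⟩).2

/-! ## Ends -/

theorem end_clopen [T2Space X] (hB : Bd X) (hL : LCC X) {R : X → X → Prop} (hR : Good R)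
    (U : Ultrafilter X) (hU : (U : Filter X) ≤ cocompact X) :
    IsClopen {x | ∀ᶠ y in (U : Filter X), R y x} := by
  have key : ∀ x : X, ∀ᶠ w in 𝓝 x, ((∀ᶠ y in (U : Filter X), R y w) ↔
      (∀ᶠ y in (U : Filter X), R y x)) := by
    intro x
    obtain ⟨W, hW, hWc, hxW⟩ := hL x
    obtain ⟨P, hP, hxP, hPW, hPu⟩ := uniform_nhd hB hR hW hWc hxW
    filter_upwards [hP.isOpen.mem_nhds hxP] with w hw
    have hWU : ∀ᶠ y in (U : Filter X), y ∉ W := hU hWc.compl_mem_cocompact
    constructor
    · intro h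
      filter_upwards [h, hWU] with y h1 h2
      exact (hPu y h2 w hw).1 h1
    · intro h
      filter_upwards [h, hWU] with y h1 h2
      exact (hPu y h2 w hw).2 h1
  constructor
  · rw [← isOpen_compl_iff, isOpen_iff_eventually]
    intro x hx
    filter_upwards [key x] with w hw h
    exact hx (hw.1 h)
  · rw [isOpen_iff_eventually]
    intro x hx
    filter_upwards [key x] with w hw
    exact hw.2 hx

theorem no_end_aux [T2Space X] (hX : Roy X) (hL : LCC X) {R : X → X → Prop} (hR : Good R)
    (U : Ultrafilter X) (hU : (U : Filter X) ≤ cocompact X)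
    (hS : {x | ∀ᶠ y in (U : Filter X), R y x} ∈ U) : False := by
  have hB := bd_of_roy hX hR
  set S : Set X := {x | ∀ᶠ y in (U : Filter X), R y x} with hSdef
  have hSc : IsClopen S := end_clopen hB hL hR U hU
  obtain ⟨z, hzS, hz⟩ := king_in hX hR hSc (U.nonempty_of_mem hS)
  obtain ⟨W, hW, hWc, hzW⟩ := hL z
  have hWU : ∀ᶠ y in (U : Filter X), y ∉ W := hU hWc.compl_mem_cocompact
  -- first step reach
  have hA0 : IsClopen (W ∪ {y | R z y}) := by
    constructor
    · rw [← isOpen_compl_iff, isOpen_iff_eventually]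
      intro y hy
      have hyW : y ∉ W := fun h => hy (Or.inl h)
      have hne : z ≠ y := fun h => hyW (h ▸ hzW)
      filter_upwards [hW.compl.isOpen.mem_nhds hyW, ev_right hR hne] with y' h1 h2
      rintro (h3 | h3)
      · exact h1 h3
      · exact hy (Or.inr (h2.1 h3))
    · rw [isOpen_iff_eventually]
      intro y hy
      by_cases hyW : y ∈ W
      · filter_upwards [hW.isOpen.mem_nhds hyW] with y' h1
        exact Or.inl h1
      · have hne : z ≠ y := fun h => hyW (h ▸ hzW)
        have hR' : R z y := by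
          rcases hy with h | h
          · exact absurd h hyW
          · exact h
        filter_upwards [ev_right hR hne] with y' h2
        exact Or.inr (h2.2 hR')
  set A : Set X := (W ∪ {y | R z y}) ∩ S with hAdef
  have hA : IsClopen A := hA0.inter hSc
  have hAU : ∀ᶠ y in (U : Filter X), y ∉ A := by
    have h1 : ∀ᶠ y in (U : Filter X), R y z := hzS
    filter_upwards [h1, hWU] with y h2 h3
    rintro ⟨h4 | h4, _⟩
    · exact h3 h4
    · have hne : z ≠ y := fun h => h3 (h ▸ hzW)
      exact (hR.tot z y hne).1 h4 h2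
  obtain ⟨F, hFfin, hFA, hF⟩ := finite_type hB hL hR hA
  have hFU : ∀ᶠ x in (U : Filter X), ∀ p ∈ F, R x p := by
    rw [eventually_all_finite hFfin]
    intro p hp
    exact (hFA hp).2
  obtain ⟨x, hxF, hxA, hxS⟩ := (hFU.and (hAU.and hS)).exists
  obtain ⟨y, hyS, hy1, hy2⟩ := hz x hxS
  have hyA : y ∈ A := by
    refine ⟨?_, hyS⟩
    rcases hy1 with h | h
    · left; exact h ▸ hzW
    · right; exact h
  have hne : y ≠ x := fun h => hxA (h ▸ hyA)
  have hyx : R y x := by
    rcases hy2 with h | h
    · exact absurd h hne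
    · exact h
  obtain ⟨p, hp, hpy⟩ := hF y hyA
  have hxy : R x y := (hpy x hxA).2 (hxF p hp)
  exact (hR.tot y x hne).1 hyx hxy

theorem compact_of_lcc [T2Space X] (hX : Roy X) (hL : LCC X) {R : X → X → Prop} (hR : Good R) :
    CompactSpace X := by
  by_contra hnc
  have hnc' : NoncompactSpace X := not_compactSpace_iff.1 hnc
  let U : Ultrafilter X := Ultrafilter.of (cocompact X)
  have hU : (U : Filter X) ≤ cocompact X := Ultrafilter.of_le _
  rcases U.mem_or_compl_mem {x | ∀ᶠ y in (U : Filter X), R y x} with h | h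
  · exact no_end_aux hX hL hR U hU h
  · refine no_end_aux hX hL hR.op U hU ?_
    filter_upwards [h] with x hx
    have h1 : ¬ ∀ᶠ y in (U : Filter X), R y x := hx
    have h2 : ∀ᶠ y in (U : Filter X), ¬ R y x := Ultrafilter.eventually_not.2 h1
    have h3 : ∀ᶠ y in (U : Filter X), y ≠ x := by
      have : ({x} : Set X)ᶜ ∈ (U : Filter X) := hU isCompact_singleton.compl_mem_cocompact
      exact this
    filter_upwards [h2, h3] with y h4 h5
    exact (hR.tot x y h5.symm).2 h4

/-! ## Compact components give compact clopen neighbourhoods -/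

theorem lcc_of_component [T2Space X] [LocallyCompactSpace X] (x : X)
    (hC : IsCompact (connectedComponent x)) :
    ∃ W : Set X, IsClopen W ∧ IsCompact W ∧ x ∈ W := by
  obtain ⟨K, hK, hCK⟩ := exists_compact_superset hC
  have : CompactSpace K := isCompact_iff_compactSpace.1 hK
  have hxK : x ∈ K := interior_subset (hCK mem_connectedComponent)
  let x' : K := ⟨x, hxK⟩
  have h1 : connectedComponent x' ⊆ Subtype.val ⁻¹' (interior K) := by
    intro y hy
    apply hCK
    have h2 : IsPreconnected (Subtype.val '' (connectedComponent x')) :=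
      isPreconnected_connectedComponent.image _ continuous_subtype_val.continuousOn
    exact h2.subset_connectedComponent ⟨x', mem_connectedComponent, rfl⟩ ⟨y, hy, rfl⟩
  rw [connectedComponent_eq_iInter_isClopen] at h1
  have hO : IsOpen (Subtype.val ⁻¹' (interior K) : Set K) :=
    isOpen_interior.preimage continuous_subtype_val
  have hOc : IsCompact ((Subtype.val ⁻¹' (interior K))ᶜ : Set K) := hO.isClosed_compl.isCompact
  have hne : Nonempty { s : Set K // IsClopen s ∧ x' ∈ s } := ⟨⟨univ, isClopen_univ, mem_univ _⟩⟩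
  obtain ⟨s, hs⟩ := hOc.elim_directed_family_closed
    (fun s : { s : Set K // IsClopen s ∧ x' ∈ s } => (s : Set K))
    (fun s => s.2.1.isClosed)
    (by
      rw [← disjoint_iff_inter_eq_empty, disjoint_compl_left_iff_subset]
      exact h1)
    (by
      intro s t
      exact ⟨⟨s ∩ t, s.2.1.inter t.2.1, s.2.2, t.2.2⟩, inter_subset_left, inter_subset_right⟩)
  obtain ⟨s, hsc, hxs⟩ := s
  have hsO : s ⊆ Subtype.val ⁻¹' (interior K) := by
    rw [← disjoint_iff_inter_eq_empty, disjoint_compl_left_iff_subset] at hs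
    exact hs
  have hcomp : IsCompact (Subtype.val '' s) := hsc.isClosed.isCompact.image continuous_subtype_val
  refine ⟨Subtype.val '' s, ⟨hcomp.isClosed, ?_⟩, hcomp, ⟨x', hxs, rfl⟩⟩
  obtain ⟨G, hG, hGs⟩ := isOpen_induced_iff.1 hsc.isOpen
  have h3 : Subtype.val '' s = G ∩ interior K := by
    ext y
    constructor
    · rintro ⟨y, hy, rfl⟩
      refine ⟨?_, hsO hy⟩
      rw [← hGs] at hy
      exact hy
    · rintro ⟨h4, h5⟩
      refine ⟨⟨y, interior_subset h5⟩, ?_, rfl⟩
      rw [← hGs]
      exact h4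
  rw [h3]
  exact hG.inter isOpen_interior

/-! ## Ordered connected spaces -/

section Ordered

theorem right_nbhd {Y : Type*} [LinearOrder Y] [TopologicalSpace Y] [OrderClosedTopology Y]
    [PreconnectedSpace Y] {V : Set Y} (hV : IsCompact V) {c t : Y} (hcV : c ∈ interior V)
    (hct : c < t) : ∃ q, c < q ∧ Icc c q ⊆ V := by
  -- intervals are connected
  have hconn : ∀ p q : Y, p ≤ q → IsPreconnected (Icc p q) := by
    intro p q hpq
    have h1 : Continuous (fun y : Y => max p (min y q)) :=
      continuous_const.max (continuous_id.min continuous_const)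
    have h2 : range (fun y : Y => max p (min y q)) = Icc p q := by
      ext y
      constructor
      · rintro ⟨x, rfl⟩
        exact ⟨le_max_left _ _, max_le hpq (min_le_right _ _)⟩
      · rintro ⟨h3, h4⟩
        refine ⟨y, ?_⟩
        simp [h3, h4]
    rw [← h2]
    exact isPreconnected_range h1
  -- density
  have hdens : ∀ p q : Y, p < q → ∃ r, p < r ∧ r < q := by
    intro p q hpq
    by_contra hno
    have h1 : IsClopen (Iic p) := by
      refine ⟨isClosed_Iic, ?_⟩
      have h2 : Iic p = Iio q := by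
        ext r
        constructor
        · intro h; exact lt_of_le_of_lt h hpq
        · intro h
          by_contra h3
          exact hno ⟨r, not_le.1 h3, h⟩
      rw [h2]
      exact isOpen_Iio
    have h3 : Iic p = univ := h1.eq_univ ⟨p, le_rfl⟩
    have h4 : q ∈ Iic p := h3 ▸ mem_univ q
    exact absurd h4 (not_le.2 hpq)
  by_contra hno
  push Not at hno
  have hK : IsCompact (frontier V) := hV.of_isClosed_subset isClosed_frontier
    hV.isClosed.frontier_subset
  have hmeet : ∀ q, c < q → (Icc c q ∩ frontier V).Nonempty := by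
    intro q hq
    obtain ⟨e, he, heV⟩ := not_subset.1 (hno q hq)
    by_contra hemp
    rw [not_nonempty_iff_eq_empty, eq_empty_iff_forall_notMem] at hemp
    obtain ⟨y, _, hy1, hy2⟩ := hconn c q hq.le (interior V) Vᶜ isOpen_interior
      hV.isClosed.isOpen_compl
      (by
        intro y hy
        by_cases hyV : y ∈ V
        · left
          by_contra h3
          exact hemp y ⟨hy, subset_closure hyV, h3⟩
        · exact Or.inr hyV)
      ⟨c, ⟨le_rfl, hq.le⟩, hcV⟩ ⟨e, he, heV⟩
    exact hy2 (interior_subset hy1)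
  have : Nonempty {q : Y // c < q} := ⟨⟨t, hct⟩⟩
  obtain ⟨⟨q, hq⟩, hqe⟩ := hK.elim_directed_family_closed
    (fun q : {q : Y // c < q} => Icc c (q : Y))
    (fun q => isClosed_Icc)
    (by
      rw [eq_empty_iff_forall_notMem]
      rintro x ⟨hx, hx'⟩
      simp only [mem_iInter] at hx'
      have h1 : c ≤ x := (hx' ⟨t, hct⟩).1
      rcases h1.eq_or_lt with h | h
      · subst h
        exact (hx.2) hcV
      · obtain ⟨r, hr1, hr2⟩ := hdens c x h
        exact absurd (hx' ⟨r, hr1⟩).2 (not_le.2 hr2))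
    (by
      rintro ⟨a, ha⟩ ⟨b, hb⟩
      refine ⟨⟨min a b, lt_min ha hb⟩, ?_, ?_⟩
      · exact Icc_subset_Icc_right (min_le_left _ _)
      · exact Icc_subset_Icc_right (min_le_right _ _))
  obtain ⟨y, hy1, hy2⟩ := hmeet q hq
  rw [eq_empty_iff_forall_notMem] at hqe
  exact hqe y ⟨hy2, hy1⟩

theorem left_nbhd {Y : Type*} [LinearOrder Y] [TopologicalSpace Y] [OrderClosedTopology Y]
    [PreconnectedSpace Y] {V : Set Y} (hV : IsCompact V) {c t : Y} (hcV : c ∈ interior V)
    (hct : t < c) : ∃ p, p < c ∧ Icc p c ⊆ V := by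
  have hpre : PreconnectedSpace Yᵒᵈ := ‹PreconnectedSpace Y›
  obtain ⟨q, hq, hqV⟩ := right_nbhd (Y := Yᵒᵈ) (V := V) hV (c := OrderDual.toDual c)
    (t := OrderDual.toDual t) hcV hct
  refine ⟨OrderDual.ofDual q, hq, ?_⟩
  intro y hy
  exact hqV ⟨hy.2, hy.1⟩

theorem compact_of_ordered {Y : Type*} [LinearOrder Y] [TopologicalSpace Y]
    [OrderClosedTopology Y] [PreconnectedSpace Y] [LocallyCompactSpace Y] (b t : Y)
    (hb : ∀ y, b ≤ y) (ht : ∀ y, y ≤ t) : CompactSpace Y := by
  have h1 : IsClopen {c : Y | IsCompact (Iic c)} := by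
    constructor
    · rw [← isOpen_compl_iff, isOpen_iff_eventually]
      intro c hc
      obtain ⟨V, hVc, hV⟩ := exists_compact_mem_nhds c
      have hbc : b < c := by
        rcases (hb c).eq_or_lt with h | h
        · exfalso
          apply hc
          have h2 : Iic c = {c} := by
            ext y
            constructor
            · intro hy
              exact le_antisymm hy (h ▸ hb y)
            · rintro rfl
              exact le_rfl
          show IsCompact (Iic c)
          rw [h2]
          exact isCompact_singleton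
        · exact h
      obtain ⟨p, hp, hpV⟩ := left_nbhd hVc (mem_interior_iff_mem_nhds.2 hV) hbc
      filter_upwards [isOpen_Ioi.mem_nhds (mem_Ioi.2 hp)] with c' hc' hcomp
      apply hc
      show IsCompact (Iic c)
      refine (IsCompact.union (s := Iic c') hcomp hVc).of_isClosed_subset isClosed_Iic ?_
      intro y hy
      rcases le_total y c' with h | h
      · exact Or.inl h
      · exact Or.inr (hpV ⟨(le_of_lt hc').trans h, hy⟩)
    · rw [isOpen_iff_eventually]
      intro c hc
      obtain ⟨V, hVc, hV⟩ := exists_compact_mem_nhds c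
      rcases (ht c).eq_or_lt with h | h
      · filter_upwards with c'
        exact IsCompact.of_isClosed_subset hc isClosed_Iic (Iic_subset_Iic.2 (h ▸ ht c'))
      · obtain ⟨q, hq, hqV⟩ := right_nbhd hVc (mem_interior_iff_mem_nhds.2 hV) h
        filter_upwards [isOpen_Iio.mem_nhds (mem_Iio.2 hq)] with c' hc'
        show IsCompact (Iic c')
        refine (IsCompact.union (s := Iic c) hc hVc).of_isClosed_subset isClosed_Iic ?_
        intro y hy
        rcases le_total y c with h | h
        · exact Or.inl h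
        · exact Or.inr (hqV ⟨h, le_trans hy (le_of_lt hc')⟩)
  have h2 : b ∈ {c : Y | IsCompact (Iic c)} := by
    show IsCompact (Iic b)
    have h3 : Iic b = {b} := by
      ext y
      constructor
      · intro hy
        exact le_antisymm hy (hb y)
      · rintro rfl
        exact le_rfl
    rw [h3]
    exact isCompact_singleton
  have h3 := h1.eq_univ ⟨b, h2⟩
  have h4 : t ∈ {c : Y | IsCompact (Iic c)} := h3 ▸ mem_univ t
  have h5 : Iic t = univ := by
    ext y
    exact ⟨fun _ => mem_univ _, fun _ => ht y⟩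
  have h6 : IsCompact (Iic t) := h4
  rw [h5] at h6
  exact ⟨h6⟩

end Ordered

/-! ## Components -/

theorem open_right [T2Space X] {R : X → X → Prop} (hR : Good R) (x : X) :
    IsOpen {c | c ≠ x ∧ R x c} := by
  rw [isOpen_iff_eventually]
  rintro c ⟨hc, hc'⟩
  filter_upwards [isOpen_ne.mem_nhds hc, ev_right hR hc.symm] with y h1 h2
  exact ⟨h1, h2.2 hc'⟩

theorem open_left [T2Space X] {R : X → X → Prop} (hR : Good R) (x : X) :
    IsOpen {c | c ≠ x ∧ R c x} := open_right hR.op x

theorem uni [T2Space X] {R : X → X → Prop} (hR : Good R) {C : Set X} (hC : IsPreconnected C)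
    {x : X} (hx : x ∉ C) {a b : X} (ha : a ∈ C) (hb : b ∈ C) (h : R x a) : R x b := by
  by_contra h'
  have hne : ∀ c ∈ C, c ≠ x := fun c hc h => hx (h ▸ hc)
  have h1 : R b x := by
    by_contra h''
    exact h' ((hR.tot x b (hne b hb).symm).2 h'')
  obtain ⟨y, hy, ⟨h2, h3⟩, ⟨_, h4⟩⟩ := hC _ _ (open_right hR x) (open_left hR x)
    (by
      intro c hc
      by_cases h5 : R x c
      · exact Or.inl ⟨hne c hc, h5⟩
      · exact Or.inr ⟨hne c hc, (hR.tot c x (hne c hc)).2 h5⟩)
    ⟨a, ha, hne a ha, h⟩ ⟨b, hb, hne b hb, h1⟩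
  exact (hR.tot x y h2.symm).1 h3 h4

theorem no_cycle [T2Space X] {R : X → X → Prop} (hR : Good R) {C : Set X}
    (hC : IsPreconnected C) {a b c : X} (ha : a ∈ C) (hb : b ∈ C) (hab : a ≠ b)
    (hbc : b ≠ c) (hca : c ≠ a) (h1 : R a b) (h2 : R b c) (h3 : R c a) : False := by
  have hclop : IsClopen ({x | x ≠ b ∧ R x b} ∩ {x | x ≠ c ∧ R c x}) := by
    constructor
    · rw [← isOpen_compl_iff, isOpen_iff_eventually]
      intro x hx
      by_cases hxb : x = b
      · subst hxb
        filter_upwards [(open_left hR c).mem_nhds ⟨hbc, h2⟩] with y hy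
        rintro ⟨_, _, h5⟩
        exact (hR.tot y c hy.1).1 hy.2 h5
      by_cases hxc : x = c
      · subst hxc
        filter_upwards [(open_right hR b).mem_nhds ⟨hbc.symm, h2⟩] with y hy
        rintro ⟨⟨_, h5⟩, _⟩
        exact (hR.tot y b hy.1).1 h5 hy.2
      by_cases h4 : R x b
      · have h5 : ¬ R c x := fun h => hx ⟨⟨hxb, h4⟩, ⟨hxc, h⟩⟩
        have h6 : R x c := (hR.tot x c hxc).2 h5
        filter_upwards [(open_left hR c).mem_nhds ⟨hxc, h6⟩] with y hy
        rintro ⟨_, _, h7⟩
        exact (hR.tot y c hy.1).1 hy.2 h7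
      · have h6 : R b x := (hR.tot b x (Ne.symm hxb)).2 h4
        filter_upwards [(open_right hR b).mem_nhds ⟨hxb, h6⟩] with y hy
        rintro ⟨⟨_, h5⟩, _⟩
        exact (hR.tot y b hy.1).1 h5 hy.2
    · exact (open_left hR b).inter (open_right hR c)
  have h4 := hC.subset_isClopen hclop ⟨a, ha, ⟨hab, h1⟩, ⟨hca.symm, h3⟩⟩
  exact (h4 hb).1.1 rfl

theorem trans_conn [T2Space X] {R : X → X → Prop} (hR : Good R) {C : Set X}
    (hC : IsPreconnected C) {a b c : X} (ha : a ∈ C) (hb : b ∈ C) (h1 : a = b ∨ R a b)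
    (h2 : b = c ∨ R b c) : a = c ∨ R a c := by
  rcases h1 with h1 | h1
  · rw [h1]; exact h2
  rcases h2 with h2 | h2
  · rw [← h2]; exact Or.inr h1
  by_contra h
  rw [not_or] at h
  obtain ⟨hac, hac'⟩ := h
  by_cases hab : a = b
  · subst hab; exact hac' h2
  by_cases hbc : b = c
  · subst hbc; exact hac' h1
  exact no_cycle hR hC ha hb hab hbc (Ne.symm hac) h1 h2 ((hR.tot c a (Ne.symm hac)).2 hac')

theorem source [T2Space X] (hX : Roy X) {R : X → X → Prop} (hR : Good R) (c : X) :
    ∃ m ∈ connectedComponent c, ∀ x ∈ connectedComponent c, m = x ∨ R m x := by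
  by_contra hno
  push Not at hno
  set C := connectedComponent c with hCdef
  have hC : IsPreconnected C := isPreconnected_connectedComponent
  have hCc : IsClosed C := isClosed_connectedComponent
  have hcC : c ∈ C := mem_connectedComponent
  -- every point of `C` is beaten by a point of `C`
  have hbeat : ∀ m ∈ C, ∃ x ∈ C, x ≠ m ∧ R x m := by
    intro m hm
    obtain ⟨x, hx, hne, hx'⟩ := hno m hm
    exact ⟨x, hx, hne.symm, (hR.tot x m hne.symm).2 hx'⟩
  let N : Set X := {x | x ∉ C ∧ ∀ a ∈ C, R x a}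
  have hN : IsClopen N := by
    constructor
    · rw [← isOpen_compl_iff, isOpen_iff_eventually]
      intro x hx
      by_cases hxC : x ∈ C
      · obtain ⟨b, hb, hbx, hbR⟩ := hbeat x hxC
        filter_upwards [(open_right hR b).mem_nhds ⟨hbx.symm, hbR⟩] with y hy
        rintro ⟨_, h5⟩
        exact (hR.tot y b hy.1).1 (h5 b hb) hy.2
      · have h1 : ∃ a ∈ C, ¬ R x a := by
          by_contra h2
          push Not at h2
          exact hx ⟨hxC, h2⟩
        obtain ⟨a, ha, hax⟩ := h1
        have hne : x ≠ a := fun h => hxC (h ▸ ha)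
        filter_upwards [(open_right hR a).mem_nhds ⟨hne, (hR.tot a x hne.symm).2 hax⟩] with y hy
        rintro ⟨_, h5⟩
        exact (hR.tot y a hy.1).1 (h5 a ha) hy.2
    · rw [isOpen_iff_eventually]
      rintro x ⟨hxC, hx⟩
      have hne : x ≠ c := fun h => hxC (h ▸ hcC)
      filter_upwards [hCc.isOpen_compl.mem_nhds hxC,
        (open_left hR c).mem_nhds ⟨hne, hx c hcC⟩] with y h1 h2
      exact ⟨h1, fun a ha => uni hR hC h1 hcC ha h2.2⟩
  have hG := good_glue (ind_lc hN.compl) hR
  obtain ⟨z, hz⟩ := hX _ hG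
  have hCN : ∀ x ∈ C, x ∈ Nᶜ := fun x hx h => h.1 hx
  -- `C` beats everything outside
  have hout : ∀ a ∈ C, ∀ x ∉ C, glue (ind Nᶜ) R a x := by
    intro a ha x hx
    by_cases hxN : x ∈ N
    · right
      rw [ind_pos (hCN a ha), ind_neg (Z := Nᶜ) (fun h => h hxN)]
      exact Nat.one_pos
    · left
      refine ⟨by rw [ind_pos (hCN a ha), ind_pos (Z := Nᶜ) hxN], ?_⟩
      have hne : a ≠ x := fun h => hx (h ▸ ha)
      rw [hR.tot a x hne]
      intro h
      exact hxN ⟨hx, fun b hb => uni hR hC hx ha hb h⟩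
  have hback : ∀ a ∈ C, ∀ x, (x = a ∨ glue (ind Nᶜ) R x a) → x ∈ C := by
    intro a ha x hx
    by_contra hxC
    have hne : x ≠ a := fun h => hxC (h ▸ ha)
    rcases hx with h | h
    · exact hne h
    · exact (hG.tot x a hne).1 h (hout a ha x hxC)
  have hin : ∀ a ∈ C, ∀ x ∈ C, (x = a ∨ glue (ind Nᶜ) R x a) → x = a ∨ R x a := by
    intro a ha x hx h
    rcases h with h | ⟨_, h⟩ | h
    · exact Or.inl h
    · exact Or.inr h
    · rw [ind_pos (hCN a ha), ind_pos (hCN x hx)] at h
      omega
  have hzC : z ∈ C := by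
    obtain ⟨y, hy1, hy2⟩ := hz c
    exact hback y (hback c hcC y hy2) z hy1
  obtain ⟨b, hb, hbz, hbR⟩ := hbeat z hzC
  obtain ⟨y, hy1, hy2⟩ := hz b
  have hyC := hback b hb y hy2
  have h1 := hin y hyC z hzC hy1
  have h2 := hin b hb y hyC hy2
  rcases trans_conn hR hC hzC hyC h1 h2 with h | h
  · exact hbz h.symm
  · exact (hR.tot z b hbz.symm).1 h hbR

open Classical in
/-- The linear order of a connected set induced by a good relation. -/
@[instance_reducible] noncomputable def ord [T2Space X] {R : X → X → Prop} (hR : Good R) {C : Set X}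
    (hC : IsPreconnected C) : LinearOrder C where
  le a b := (a : X) = b ∨ R a b
  le_refl a := Or.inl rfl
  le_trans a b c h1 h2 := trans_conn hR hC a.2 b.2 h1 h2
  le_antisymm a b h1 h2 := by
    apply Subtype.ext
    by_contra hne
    rcases h1 with h1 | h1
    · exact hne h1
    rcases h2 with h2 | h2
    · exact hne h2.symm
    exact (hR.tot _ _ hne).1 h1 h2
  le_total a b := by
    by_cases h : (a : X) = b
    · exact Or.inl (Or.inl h)
    · by_cases h' : R a b
      · exact Or.inl (Or.inr h')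
      · exact Or.inr (Or.inr ((hR.tot _ _ (Ne.symm h)).2 h'))
  toDecidableLE := Classical.decRel _

theorem component_compact [T2Space X] [LocallyCompactSpace X] (hX : Roy X)
    {R : X → X → Prop} (hR : Good R) (c : X) : IsCompact (connectedComponent c) := by
  obtain ⟨m, hm, hm'⟩ := source hX hR c
  obtain ⟨s, hs, hs'⟩ := source hX hR.op c
  have hC : IsPreconnected (connectedComponent c) := isPreconnected_connectedComponent
  have hCc : IsClosed (connectedComponent c) := isClosed_connectedComponent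
  let _ : LinearOrder (connectedComponent c) := ord hR hC
  have : PreconnectedSpace (connectedComponent c) := Subtype.preconnectedSpace hC
  have : LocallyCompactSpace (connectedComponent c) :=
    hCc.isClosedEmbedding_subtypeVal.locallyCompactSpace
  have hle : ∀ a b : connectedComponent c, a ≤ b ↔ ((a : X) = b ∨ R a b) := fun a b => Iff.rfl
  have : OrderClosedTopology (connectedComponent c) := by
    constructor
    rw [← isOpen_compl_iff, isOpen_iff_eventually]
    rintro ⟨a, b⟩ hab
    have h1 : ¬ ((a : X) = b ∨ R a b) := hab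
    rw [not_or] at h1
    have h2 : R b a := (hR.tot _ _ (Ne.symm h1.1)).2 h1.2
    have h3 : ∀ᶠ q : X × X in 𝓝 ((a : X), (b : X)), q.1 ≠ q.2 ∧ R q.2 q.1 := by
      have hne : ∀ᶠ q : X × X in 𝓝 ((a : X), (b : X)), q.1 ≠ q.2 :=
        (isOpen_ne_fun continuous_fst continuous_snd).mem_nhds h1.1
      exact hne.and (hR.op.loc a b h1.1 h2)
    have h4 : Tendsto (fun q : connectedComponent c × connectedComponent c =>
        ((q.1 : X), (q.2 : X))) (𝓝 (a, b)) (𝓝 ((a : X), (b : X))) :=
      ((continuous_subtype_val.comp continuous_fst).prodMk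
        (continuous_subtype_val.comp continuous_snd)).tendsto (a, b)
    filter_upwards [h4.eventually h3] with q hq hq'
    have h5 : ((q.1 : X) = q.2 ∨ R q.1 q.2) := hq'
    rcases h5 with h5 | h5
    · exact hq.1 h5
    · exact (hR.tot _ _ hq.1).1 h5 hq.2
  have h := compact_of_ordered (Y := connectedComponent c) ⟨m, hm⟩ ⟨s, hs⟩
    (fun y => (hle _ _).2 (hm' y y.2))
    (fun y => (hle _ _).2 (by
      rcases hs' y y.2 with h | h
      · exact Or.inl h.symm
      · exact Or.inr h))
  exact isCompact_iff_compactSpace.2 h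

/-- **Q1, affirmative.** Every locally compact Hausdorff king space which admits a continuous weak
selection is compact. -/
theorem result (X : Type*) [TopologicalSpace X] [T2Space X] [LocallyCompactSpace X]
    (hking : KingSpace X)
    (hsel : ∃ φ : X → X → X, IsWeakSelection φ ∧ ContinuousSelection φ) :
    CompactSpace X := by
  obtain ⟨φ, hφ, hφc⟩ := hsel
  have hR := good_of_selection hφ hφc
  have hX := roy_of_kingSpace hking
  exact compact_of_lcc hX (fun x => lcc_of_component x (component_compact hX hR x)) hR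

end Pool.Agent.Results.MP_abcfaf_gt.LocallyCompactKing
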