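import Mathlib

set_option autoImplicit false

/-!
# Continuous maps of products into `βω` depend locally on one coordinate

`two_factor`: let `X` be compact, `Y` compact and regular, and let `f : X × Y → βω` be continuous.
Each point of `X × Y` has a neighbourhood `U × V` on which `f` depends on only one coordinate.
`n_factor`: the same for finite powers. (Theorems of this kind are due to van Douwen and Farah;
the proof here is a direct one.)
-/

namespace Pool.Agent.H180.OneCoord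

open Set Filter Topology

/-- The Čech-Stone compactification of the natural numbers. -/
abbrev Bw : Type := Ultrafilter ℕ

/-! ### Chains of dependent choices -/

theorem exists_chain {σ δ : Type*} (P : σ → Prop) (R : σ → δ → σ → Prop) (s0 : σ) (h0 : P s0)
    (h : ∀ s, P s → ∃ d s', R s d s' ∧ P s') :
    ∃ (s : ℕ → σ) (d : ℕ → δ), s 0 = s0 ∧ ∀ n, P (s n) ∧ R (s n) (d n) (s (n + 1)) := by
  obtain ⟨d0, -, -⟩ := h s0 h0
  have h' : ∀ s, ∃ d s', P s → R s d s' ∧ P s' := by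
    intro s
    by_cases hs : P s
    · obtain ⟨d, s', h1⟩ := h s hs
      exact ⟨d, s', fun _ => h1⟩
    · exact ⟨d0, s, fun h1 => absurd h1 hs⟩
  choose D S hS using h'
  let t : ℕ → σ := fun n => Nat.rec s0 (fun _ s => S s) n
  have ht : ∀ n, P (t n) := by
    intro n
    induction n with
    | zero => exact h0
    | succ n ih => exact (hS _ ih).2
  exact ⟨t, fun n => D (t n), rfl, fun n => ⟨ht n, (hS _ (ht n)).1⟩⟩

theorem exists_lt_eq {T : Type*} {F : ℕ → T} (h : (range F).Finite) : ∃ i j, i < j ∧ F i = F j := by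
  by_contra hne
  push Not at hne
  have hinj : Function.Injective F := by
    intro i j hij
    by_contra hij'
    rcases lt_or_gt_of_ne hij' with h1 | h1
    · exact hne i j h1 hij
    · exact hne j i h1 hij.symm
  exact (infinite_range_of_injective hinj) h

theorem exists_infinite_fiber {α β : Type*} {F : α → β} {S : Set α} (hS : S.Infinite)
    (h : (F '' S).Finite) : ∃ v, {y ∈ S | F y = v}.Infinite := by
  by_contra hne
  push Not at hne
  refine hS ((h.biUnion fun v _ => hne v).subset fun y hy => ?_)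
  exact mem_biUnion (mem_image_of_mem F hy) ⟨hy, rfl⟩

/-! ### Ultrafilters -/

/-- One step of the thinning out. -/
noncomputable def stepF (q : ℕ → Bw) (g : ℕ → Set ℕ) (t : ℕ → ℕ) : ℕ → ℕ := by
  classical exact if (⋃ k, g (t (2 * k + 1))) ∈ q (t 0) then (fun k => t (2 * k + 2))
    else (fun k => t (2 * k + 1))

theorem stepF_cases (q : ℕ → Bw) (g : ℕ → Set ℕ) (t : ℕ → ℕ) :
    ((⋃ k, g (t (2 * k + 1))) ∈ q (t 0) ∧ stepF q g t = (fun k => t (2 * k + 2))) ∨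
      ((⋃ k, g (t (2 * k + 1))) ∉ q (t 0) ∧ stepF q g t = (fun k => t (2 * k + 1))) := by
  classical
  by_cases h : (⋃ k, g (t (2 * k + 1))) ∈ q (t 0)
  · exact Or.inl ⟨h, if_pos h⟩
  · exact Or.inr ⟨h, if_neg h⟩

theorem stepF_notMem {q : ℕ → Bw} {g : ℕ → Set ℕ} (hd : ∀ i j, i ≠ j → Disjoint (g i) (g j))
    {t : ℕ → ℕ} (ht : StrictMono t) : (⋃ k, g (stepF q g t k)) ∉ q (t 0) := by
  rcases stepF_cases q g t with ⟨h1, h2⟩ | ⟨h1, h2⟩
  · rw [h2]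
    intro h3
    obtain ⟨m, hm1, hm2⟩ := Ultrafilter.nonempty_of_mem (Filter.inter_mem h1 h3)
    obtain ⟨i, hi⟩ := mem_iUnion.1 hm1
    obtain ⟨j, hj⟩ := mem_iUnion.1 hm2
    refine Set.disjoint_left.1 (hd _ _ ?_) hi hj
    intro h4
    have := ht.injective h4
    omega
  · rw [h2]
    exact h1

theorem stepF_strictMono (q : ℕ → Bw) (g : ℕ → Set ℕ) {t : ℕ → ℕ} (ht : StrictMono t) :
    StrictMono (stepF q g t) := by
  rcases stepF_cases q g t with ⟨-, h2⟩ | ⟨-, h2⟩ <;> rw [h2]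
  · exact fun a b h => ht (by omega)
  · exact fun a b h => ht (by omega)

theorem stepF_range (q : ℕ → Bw) (g : ℕ → Set ℕ) {t : ℕ → ℕ} (ht : StrictMono t) (k : ℕ) :
    (∃ m, stepF q g t k = t m) ∧ t 0 < stepF q g t k := by
  rcases stepF_cases q g t with ⟨-, h2⟩ | ⟨-, h2⟩ <;> rw [h2]
  · exact ⟨⟨_, rfl⟩, ht (by omega)⟩
  · exact ⟨⟨_, rfl⟩, ht (by omega)⟩

/-- Thinning out a sequence of disjoint sets. -/
theorem exists_thin (q : ℕ → Bw) (g : ℕ → Set ℕ) (hd : ∀ i j, i ≠ j → Disjoint (g i) (g j)) :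
    ∃ s : ℕ → ℕ, StrictMono s ∧ ∀ n, (⋃ m ∈ Ioi n, g (s m)) ∉ q (s n) := by
  let T : ℕ → ℕ → ℕ := fun n => (stepF q g)^[n] id
  have hT1 : ∀ n, T (n + 1) = stepF q g (T n) := fun n =>
    Function.iterate_succ_apply' (stepF q g) n id
  have hTm : ∀ n, StrictMono (T n) := by
    intro n
    induction n with
    | zero => exact strictMono_id
    | succ n ih => rw [hT1]; exact stepF_strictMono q g ih
  have hsub : ∀ n m, n ≤ m → ∀ k, ∃ l, T m k = T n l := by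
    intro n m hnm
    induction m, hnm using Nat.le_induction with
    | base => exact fun k => ⟨k, rfl⟩
    | succ m _ ih =>
      intro k
      rw [hT1]
      obtain ⟨⟨l, hl⟩, -⟩ := stepF_range q g (hTm m) k
      rw [hl]
      exact ih l
  refine ⟨fun n => T n 0, strictMono_nat_of_lt_succ fun n => ?_, fun n hn => ?_⟩
  · rw [hT1]
    exact (stepF_range q g (hTm n) 0).2
  · refine stepF_notMem (q := q) hd (hTm n) (Filter.mem_of_superset hn ?_)
    refine iUnion₂_subset fun m hm => ?_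
    obtain ⟨l, hl⟩ := hsub (n + 1) m hm 0
    rw [← hT1 n]
    show g (T m 0) ⊆ _
    rw [hl]
    exact subset_iUnion (fun k => g (T (n + 1) k)) l

theorem iUnion_lt_notMem {p : Bw} {g : ℕ → Set ℕ} {n : ℕ} (h : ∀ k < n, g k ∉ p) :
    (⋃ k ∈ Iio n, g k) ∉ p := by
  rw [Ultrafilter.finite_biUnion_mem_iff (Set.finite_Iio n)]
  rintro ⟨k, hk, hk'⟩
  exact h k hk hk'

theorem disjoint_diff (g : ℕ → Set ℕ) {i j : ℕ} (hij : i ≠ j) :
    Disjoint (g i \ ⋃ k ∈ Iio i, g k) (g j \ ⋃ k ∈ Iio j, g k) := by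
  rw [Set.disjoint_left]
  rintro m ⟨h1, h2⟩ ⟨h3, h4⟩
  rcases lt_or_gt_of_ne hij with h | h
  · exact h4 (mem_biUnion (show i ∈ Iio j from h) h1)
  · exact h2 (mem_biUnion (show j ∈ Iio i from h) h3)

/-- Two sequences of ultrafilters are separated by one set, after thinning out. -/
theorem exists_separating (p q : ℕ → Bw) (g : ℕ → Set ℕ) (h1 : ∀ n, g n ∈ p n)
    (h2 : ∀ n, g n ∉ q n) (h3 : ∀ k n, k < n → g k ∉ p n) (h4 : ∀ k n, k < n → g k ∉ q n) :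
    ∃ (s : ℕ → ℕ) (b : Set ℕ), StrictMono s ∧ ∀ n, b ∈ p (s n) ∧ b ∉ q (s n) := by
  let g' : ℕ → Set ℕ := fun n => g n \ ⋃ k ∈ Iio n, g k
  obtain ⟨s, hs, hs'⟩ := exists_thin q g' (fun i j hij => disjoint_diff g hij)
  refine ⟨s, ⋃ m, g' (s m), hs, fun n => ⟨?_, fun hb => ?_⟩⟩
  · refine Filter.mem_of_superset ?_ (subset_iUnion (fun m => g' (s m)) n)
    exact Ultrafilter.sdiff_mem_iff _ |>.2 ⟨h1 _, iUnion_lt_notMem fun k hk => h3 k _ hk⟩
  · have h5 : (⋃ m, g' (s m)) ⊆ (⋃ k ∈ Iio (s n), g k) ∪ g (s n) ∪ ⋃ m ∈ Ioi n, g' (s m) := by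
      refine iUnion_subset fun m => ?_
      rcases lt_trichotomy m n with h | h | h
      · refine (sdiff_subset.trans ?_).trans (subset_union_left.trans subset_union_left)
        exact fun x hx => mem_biUnion (show s m ∈ Iio (s n) from hs h) hx
      · rw [h]
        exact sdiff_subset.trans (subset_union_right.trans subset_union_left)
      · exact fun x hx => Or.inr (mem_biUnion (show m ∈ Ioi n from h) hx)
    have h6 : _ ∈ q (s n) := Filter.mem_of_superset hb h5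
    rw [Ultrafilter.union_mem_iff, Ultrafilter.union_mem_iff] at h6
    rcases h6 with (h6 | h6) | h6
    · exact iUnion_lt_notMem (fun k hk => h4 k _ hk) h6
    · exact h2 _ h6
    · exact hs' n h6

theorem exists_mem_notMem {p q : Bw} (h : p ≠ q) : ∃ b, b ∈ p ∧ b ∉ q := by
  by_contra hne
  push Not at hne
  exact h (Ultrafilter.eq_of_le (fun b hb => by
    by_contra hb'
    have h1 := hne _ (Ultrafilter.compl_mem_iff_notMem.2 hb')
    exact (Ultrafilter.compl_mem_iff_notMem.1 h1) hb))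

/-- An infinite set of ultrafilters does not converge to a point. -/
theorem exists_notMem_infinite {P : Set Bw} (hP : P.Infinite) (w : Bw) :
    ∃ g, g ∉ w ∧ {p ∈ P | g ∈ p}.Infinite := by
  by_contra hne
  push Not at hne
  have hstep : ∀ G : Set ℕ, G ∉ w → ∃ (d : Bw × Set ℕ) (G' : Set ℕ),
      (d.1 ∈ P ∧ d.2 ∈ d.1 ∧ d.2 ∉ w ∧ Disjoint d.2 G ∧ G' = G ∪ d.2) ∧ G' ∉ w := by
    intro G hG
    have h1 : (P \ ({p ∈ P | G ∈ p} ∪ {w})).Infinite :=
      hP.sdiff ((hne G hG).union (finite_singleton w))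
    obtain ⟨p, hpP, hp⟩ := h1.nonempty
    have hpw : p ≠ w := fun h => hp (Or.inr h)
    have hGp : G ∉ p := fun h => hp (Or.inl ⟨hpP, h⟩)
    obtain ⟨b, hb1, hb2⟩ := exists_mem_notMem hpw
    have h2 : b \ G ∈ p := (Ultrafilter.sdiff_mem_iff _).2 ⟨hb1, hGp⟩
    have h3 : b \ G ∉ w := fun h => hb2 (Filter.mem_of_superset h sdiff_subset)
    refine ⟨⟨p, b \ G⟩, G ∪ (b \ G), ⟨hpP, h2, h3, disjoint_sdiff_left, rfl⟩, ?_⟩
    rw [Ultrafilter.union_mem_iff]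
    exact fun h => h.elim hG h3
  obtain ⟨G, d, -, hGd⟩ := exists_chain (fun G : Set ℕ => G ∉ w)
    (fun G (d : Bw × Set ℕ) G' => d.1 ∈ P ∧ d.2 ∈ d.1 ∧ d.2 ∉ w ∧ Disjoint d.2 G ∧ G' = G ∪ d.2)
    ∅ Ultrafilter.empty_notMem hstep
  have hmono : ∀ n m, n ≤ m → G n ⊆ G m := by
    intro n m hnm
    induction m, hnm using Nat.le_induction with
    | base => exact subset_rfl
    | succ m _ ih => exact ih.trans (by rw [(hGd m).2.2.2.2.2]; exact subset_union_left)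
  have hdG : ∀ n m, n < m → (d n).2 ⊆ G m := by
    intro n m hnm
    refine subset_trans ?_ (hmono (n + 1) m hnm)
    rw [(hGd n).2.2.2.2.2]
    exact subset_union_right
  have hdis : ∀ i j, i ≠ j → Disjoint (d i).2 (d j).2 := by
    intro i j hij
    rcases lt_or_gt_of_ne hij with h | h
    · exact ((hGd j).2.2.2.2.1.mono_right (hdG i j h)).symm
    · exact (hGd i).2.2.2.2.1.mono_right (hdG j i h)
  obtain ⟨s, hs, hs'⟩ := exists_thin (fun _ => w) (fun n => (d n).2) hdis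
  refine (infinite_of_injective_forall_mem (f := fun m : ℕ => (d (s (m + 1))).1) ?_ ?_)
    (hne _ (hs' 0))
  · intro i j hij
    by_contra hne'
    have h1 := (hGd (s (i + 1))).2.2.1
    have h2 := (hGd (s (j + 1))).2.2.1
    simp only at hij
    rw [← hij] at h2
    obtain ⟨m, hm1, hm2⟩ := Ultrafilter.nonempty_of_mem (Filter.inter_mem h1 h2)
    refine Set.disjoint_left.1 (hdis _ _ ?_) hm1 hm2
    intro h
    have := hs.injective h
    omega
  · intro m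
    refine ⟨(hGd _).2.1, Filter.mem_of_superset (hGd _).2.2.1 ?_⟩
    exact fun x hx => mem_biUnion (show m + 1 ∈ Ioi 0 from Nat.succ_pos m) hx

theorem exists_split {P : Set Bw} (hP : P.Infinite) (w : Bw) :
    ∃ c e : Set ℕ, Disjoint c e ∧ c ∪ e ∉ w ∧ {p ∈ P | c ∈ p}.Infinite ∧ ∃ p ∈ P, e ∈ p := by
  obtain ⟨g, hgw, hg⟩ := exists_notMem_infinite hP w
  obtain ⟨p, hp⟩ := hg.nonempty
  obtain ⟨p', hp', hpp'⟩ : ∃ p' ∈ {p ∈ P | g ∈ p}, p' ≠ p := by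
    by_contra hne
    push Not at hne
    exact hg ((finite_singleton p).subset fun x hx => hne x hx)
  obtain ⟨a, ha1, ha2⟩ := exists_mem_notMem (Ne.symm hpp')
  have hun : {p ∈ P | g ∈ p} ⊆ {p ∈ P | g ∩ a ∈ p} ∪ {p ∈ P | g \ a ∈ p} := by
    rintro r ⟨hr, hgr⟩
    by_cases har : a ∈ r
    · exact Or.inl ⟨hr, Filter.inter_mem hgr har⟩
    · exact Or.inr ⟨hr, (Ultrafilter.sdiff_mem_iff _).2 ⟨hgr, har⟩⟩
  rcases infinite_union.1 (hg.mono hun) with h | h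
  · refine ⟨g ∩ a, g \ a, disjoint_sdiff_right.mono_left inter_subset_right, ?_, h, p', hp'.1,
      (Ultrafilter.sdiff_mem_iff _).2 ⟨hp'.2, ha2⟩⟩
    rwa [inter_union_sdiff]
  · refine ⟨g \ a, g ∩ a, disjoint_sdiff_left.mono_right inter_subset_right, ?_, h, p, hp.1,
      Filter.inter_mem hp.2 ha1⟩
    rwa [sdiff_union_inter]

/-! ### Sections of continuous maps -/

section topology

variable {X Y : Type*} [TopologicalSpace X] [TopologicalSpace Y]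

theorem isOpen_mem {Z : Type*} [TopologicalSpace Z] {F : Z → Bw} (hF : Continuous F) (b : Set ℕ) :
    IsOpen {z | b ∈ F z} :=
  (ultrafilter_isOpen_basic b).preimage hF

theorem isOpen_notMem {Z : Type*} [TopologicalSpace Z] {F : Z → Bw} (hF : Continuous F)
    (b : Set ℕ) : IsOpen {z | b ∉ F z} :=
  ((ultrafilter_isClosed_basic b).preimage hF).isOpen_compl

theorem eventually_iff {Z : Type*} [TopologicalSpace Z] {F : Z → Bw} (hF : Continuous F)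
    (b : Set ℕ) (z : Z) : ∀ᶠ z' in 𝓝 z, (b ∈ F z' ↔ b ∈ F z) := by
  by_cases h : b ∈ F z
  · filter_upwards [(isOpen_mem hF b).mem_nhds h] with z' hz'
    exact iff_of_true hz' h
  · filter_upwards [(isOpen_notMem hF b).mem_nhds h] with z' hz'
    exact iff_of_false hz' h

variable {f : X → Y → Bw}

theorem tube [CompactSpace Y] (hf : Continuous (Function.uncurry f)) (x0 : X) (g : Set ℕ)
    (h : ∀ y, g ∉ f x0 y) : ∀ᶠ x in 𝓝 x0, ∀ y, g ∉ f x y := by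
  have h1 := (isCompact_univ (X := Y)).eventually_forall_of_forall_eventually
    (x₀ := x0) (P := fun x y => g ∉ f x y) (fun y _ => (isOpen_notMem hf g).mem_nhds (h y))
  filter_upwards [h1] with x hx y using hx y (mem_univ y)

/-- For a set `b` there are only finitely many vertical sections of the preimage of `b`. -/
theorem finite_sections [CompactSpace X] [CompactSpace Y] (hf : Continuous (Function.uncurry f))
    (b : Set ℕ) : (range fun x => {y | b ∈ f x y}).Finite := by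
  have h1 : IsLocallyConstant fun x => {y | b ∈ f x y} := by
    rw [IsLocallyConstant.iff_eventually_eq]
    intro x0
    have h2 := (isCompact_univ (X := Y)).eventually_forall_of_forall_eventually
      (x₀ := x0) (P := fun x y => b ∈ f x y ↔ b ∈ f x0 y) (fun y _ => by
        have h3 := eventually_iff hf b (x0, y)
        have h4 : ∀ᶠ z : X × Y in 𝓝 (x0, y), (b ∈ f x0 z.2 ↔ b ∈ f x0 y) :=
          (eventually_iff (F := fun z : X × Y => f x0 z.2)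
            (hf.comp (continuous_const.prodMk continuous_snd)) b (x0, y))
        filter_upwards [h3, h4] with z hz1 hz2
        exact hz1.trans hz2.symm)
    filter_upwards [h2] with x hx
    ext y
    exact hx y (mem_univ y)
  exact h1.range_finite

theorem finite_sections' [CompactSpace X] [CompactSpace Y] (hf : Continuous (Function.uncurry f))
    (b : Set ℕ) : (range fun y => {x | b ∈ f x y}).Finite :=
  finite_sections (f := fun y x => f x y) (hf.comp continuous_swap) b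

/-! ### The first case -/

theorem pigeon [CompactSpace X] [CompactSpace Y] (hf : Continuous (Function.uncurry f))
    (b : Set ℕ) (y z : ℕ → Y) : ∃ i j, i < j ∧ (∀ x, b ∈ f x (y i) ↔ b ∈ f x (y j)) ∧
      ∀ x, b ∈ f x (z i) ↔ b ∈ f x (z j) := by
  have h1 := finite_sections' hf b
  have h2 : (range fun i => (({x | b ∈ f x (y i)}, {x | b ∈ f x (z i)}) : Set X × Set X)).Finite :=
    (h1.prod h1).subset (by
      rintro _ ⟨i, rfl⟩
      exact ⟨⟨y i, rfl⟩, ⟨z i, rfl⟩⟩)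
  obtain ⟨i, j, hij, h3⟩ := exists_lt_eq h2
  refine ⟨i, j, hij, fun x => ?_, fun x => ?_⟩
  · have h4 : {x | b ∈ f x (y i)} = {x | b ∈ f x (y j)} := congrArg Prod.fst h3
    exact Set.ext_iff.1 h4 x
  · have h4 : {x | b ∈ f x (z i)} = {x | b ∈ f x (z j)} := congrArg Prod.snd h3
    exact Set.ext_iff.1 h4 x

theorem no_seq [CompactSpace X] [CompactSpace Y] (hf : Continuous (Function.uncurry f))
    (x : ℕ → X) (y z : ℕ → Y) (g : ℕ → Set ℕ) (h1 : ∀ n, g n ∈ f (x n) (y n))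
    (h2 : ∀ n, g n ∉ f (x n) (z n)) (h3 : ∀ k n, k < n → ∀ y, g k ∉ f (x n) y)
    (h4 : (∀ k n, k < n → f (x n) (y k) = f (x n) (z k)) ∨
      (∀ k n, k < n → f (x k) (y n) = f (x k) (z n))) : False := by
  obtain ⟨s, b, hs, hb⟩ := exists_separating (fun n => f (x n) (y n)) (fun n => f (x n) (z n)) g
    h1 h2 (fun k n hkn => h3 k n hkn _) (fun k n hkn => h3 k n hkn _)
  obtain ⟨i, j, hij, h5, h6⟩ := pigeon hf b (fun n => y (s n)) (fun n => z (s n))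
  rcases h4 with h4 | h4
  · have h7 := h4 (s i) (s j) (hs hij)
    have h8 := (h5 (x (s j))).2 (hb j).1
    rw [h7] at h8
    exact (hb j).2 ((h6 _).1 h8)
  · have h7 := h4 (s i) (s j) (hs hij)
    have h8 := (h5 (x (s i))).1 (hb i).1
    rw [h7] at h8
    exact (hb i).2 ((h6 _).2 h8)

/-- Choose a set and order the two points. -/
theorem exists_order {X Y : Type*} {f : X → Y → Bw} {x : X} {y z : Y} {w0 : Bw} (h : f x y ≠ f x z) :
    ∃ (y' z' : Y) (g : Set ℕ), ((y' = y ∧ z' = z) ∨ (y' = z ∧ z' = y)) ∧ g ∈ f x y' ∧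
      g ∉ f x z' ∧ g ∉ w0 := by
  obtain ⟨b, hb1, hb2⟩ := exists_mem_notMem h
  by_cases hb : b ∈ w0
  · exact ⟨z, y, bᶜ, Or.inr ⟨rfl, rfl⟩, Ultrafilter.compl_mem_iff_notMem.2 hb2,
      fun h' => (Ultrafilter.compl_mem_iff_notMem.1 h') hb1,
      fun h' => (Ultrafilter.compl_mem_iff_notMem.1 h') hb⟩
  · exact ⟨y, z, b, Or.inl ⟨rfl, rfl⟩, hb1, hb2, hb⟩

/-- Stabilisation of the equivalence relations of small neighbourhoods. -/
theorem exists_stable [CompactSpace X] [CompactSpace Y] (hf : Continuous (Function.uncurry f))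
    (x0 : X) (w0 : Bw) (h0 : ∀ y, f x0 y = w0) : ∃ U ∈ 𝓝 x0, ∀ V ∈ 𝓝 x0, V ⊆ U →
      ∀ y z, (∀ x ∈ V, f x y = f x z) → ∀ x ∈ U, f x y = f x z := by
  by_contra hne
  push Not at hne
  have hstep : ∀ U : Set X, U ∈ 𝓝 x0 → ∃ (d : X × Y × Y × Set ℕ) (U' : Set X),
      (d.1 ∈ U ∧ d.2.2.2 ∈ f d.1 d.2.1 ∧ d.2.2.2 ∉ f d.1 d.2.2.1 ∧ U' ⊆ U ∧
        (∀ x ∈ U', f x d.2.1 = f x d.2.2.1) ∧ ∀ x ∈ U', ∀ y, d.2.2.2 ∉ f x y) ∧ U' ∈ 𝓝 x0 := by
    intro U hU
    obtain ⟨V, hV, hVU, y, z, hyz, x, hx, hxyz⟩ := hne U hU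
    obtain ⟨y', z', g, hyz', hg1, hg2, hg3⟩ := exists_order (w0 := w0) hxyz
    have ht := tube hf x0 g (fun y => by rw [h0 y]; exact hg3)
    refine ⟨⟨x, y', z', g⟩, V ∩ {x | ∀ y, g ∉ f x y}, ⟨hx, hg1, hg2,
      inter_subset_left.trans hVU, fun x hx => ?_, fun x hx => hx.2⟩, inter_mem hV ht⟩
    rcases hyz' with ⟨rfl, rfl⟩ | ⟨rfl, rfl⟩
    · exact hyz x hx.1
    · exact (hyz x hx.1).symm
  obtain ⟨U, d, -, hUd⟩ := exists_chain (fun U : Set X => U ∈ 𝓝 x0)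
    (fun U (d : X × Y × Y × Set ℕ) U' => d.1 ∈ U ∧ d.2.2.2 ∈ f d.1 d.2.1 ∧
      d.2.2.2 ∉ f d.1 d.2.2.1 ∧ U' ⊆ U ∧
        (∀ x ∈ U', f x d.2.1 = f x d.2.2.1) ∧ ∀ x ∈ U', ∀ y, d.2.2.2 ∉ f x y)
    univ univ_mem hstep
  have hmono : ∀ n m, n ≤ m → U m ⊆ U n := by
    intro n m hnm
    induction m, hnm using Nat.le_induction with
    | base => exact subset_rfl
    | succ m _ ih => exact (hUd m).2.2.2.2.1.trans ih
  have hmem : ∀ k n, k < n → (d n).1 ∈ U (k + 1) := fun k n hkn =>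
    hmono (k + 1) n hkn (hUd n).2.1
  exact no_seq hf (fun n => (d n).1) (fun n => (d n).2.1) (fun n => (d n).2.2.1)
    (fun n => (d n).2.2.2) (fun n => (hUd n).2.2.1) (fun n => (hUd n).2.2.2.1)
    (fun k n hkn y => (hUd k).2.2.2.2.2.2 _ (hmem k n hkn) y)
    (Or.inl fun k n hkn => (hUd k).2.2.2.2.2.1 _ (hmem k n hkn))

/-- Some point near `x0` has infinitely many values on a given infinite set. -/
theorem exists_infinite_valued [CompactSpace X] [CompactSpace Y]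
    (hf : Continuous (Function.uncurry f)) (x0 : X) (w0 : Bw) (h0 : ∀ y, f x0 y = w0)
    {U₀ : Set X} (hU₀ : U₀ ∈ 𝓝 x0) {S₀ : Set Y} (hS₀ : S₀.Infinite)
    (hS : ∀ U ∈ 𝓝 x0, U ⊆ U₀ → ∀ y ∈ S₀, ∀ z ∈ S₀, y ≠ z → ∃ x ∈ U, f x y ≠ f x z) :
    ∃ x ∈ U₀, (f x '' S₀).Infinite := by
  by_contra hne
  push Not at hne
  have hstep : ∀ s : Set X × Set Y, (s.1 ∈ 𝓝 x0 ∧ s.1 ⊆ U₀ ∧ s.2.Infinite ∧ s.2 ⊆ S₀) →
      ∃ (d : X × Y × Y × Set ℕ) (s' : Set X × Set Y),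
      (d.1 ∈ s.1 ∧ d.2.1 ∈ s.2 ∧ d.2.2.1 ∈ s.2 ∧ d.2.2.2 ∈ f d.1 d.2.1 ∧
        d.2.2.2 ∉ f d.1 d.2.2.1 ∧ s'.1 ⊆ s.1 ∧ s'.2 ⊆ s.2 ∧
        (∀ y ∈ s'.2, ∀ z ∈ s'.2, f d.1 y = f d.1 z) ∧ ∀ x ∈ s'.1, ∀ y, d.2.2.2 ∉ f x y) ∧
      (s'.1 ∈ 𝓝 x0 ∧ s'.1 ⊆ U₀ ∧ s'.2.Infinite ∧ s'.2 ⊆ S₀) := by
    rintro ⟨U, S⟩ ⟨hU, hUU, hSi, hSS⟩
    simp only at hU hUU hSi hSS
    obtain ⟨y, hy⟩ := hSi.nonempty
    obtain ⟨z, hz, hyz⟩ : ∃ z ∈ S, y ≠ z := by
      by_contra hne'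
      push Not at hne'
      exact hSi ((finite_singleton y).subset fun x hx => (hne' x hx).symm)
    obtain ⟨x, hx, hxyz⟩ := hS U hU hUU y (hSS hy) z (hSS hz) hyz
    obtain ⟨y', z', g, hyz', hg1, hg2, hg3⟩ := exists_order (w0 := w0) hxyz
    have ht := tube hf x0 g (fun y => by rw [h0 y]; exact hg3)
    have hfin : (f x '' S).Finite := (hne x (hUU hx)).subset (image_mono hSS)
    obtain ⟨v, hv⟩ := exists_infinite_fiber hSi hfin
    refine ⟨⟨x, y', z', g⟩, ⟨U ∩ {x | ∀ y, g ∉ f x y}, {y ∈ S | f x y = v}⟩,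
      ⟨hx, ?_, ?_, hg1, hg2, inter_subset_left, sep_subset _ _, ?_, fun x hx => hx.2⟩,
      inter_mem hU ht, inter_subset_left.trans hUU, hv, (sep_subset _ _).trans hSS⟩
    · rcases hyz' with ⟨rfl, rfl⟩ | ⟨rfl, rfl⟩
      · exact hy
      · exact hz
    · rcases hyz' with ⟨rfl, rfl⟩ | ⟨rfl, rfl⟩
      · exact hz
      · exact hy
    · rintro a ⟨-, ha⟩ b ⟨-, hb⟩
      rw [ha, hb]
  obtain ⟨s, d, -, hsd⟩ := exists_chain
    (fun s : Set X × Set Y => s.1 ∈ 𝓝 x0 ∧ s.1 ⊆ U₀ ∧ s.2.Infinite ∧ s.2 ⊆ S₀)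
    (fun s (d : X × Y × Y × Set ℕ) s' => d.1 ∈ s.1 ∧ d.2.1 ∈ s.2 ∧ d.2.2.1 ∈ s.2 ∧
      d.2.2.2 ∈ f d.1 d.2.1 ∧ d.2.2.2 ∉ f d.1 d.2.2.1 ∧ s'.1 ⊆ s.1 ∧ s'.2 ⊆ s.2 ∧
        (∀ y ∈ s'.2, ∀ z ∈ s'.2, f d.1 y = f d.1 z) ∧ ∀ x ∈ s'.1, ∀ y, d.2.2.2 ∉ f x y)
    (U₀, S₀) ⟨hU₀, subset_rfl, hS₀, subset_rfl⟩ hstep
  have hmono : ∀ n m, n ≤ m → (s m).1 ⊆ (s n).1 ∧ (s m).2 ⊆ (s n).2 := by
    intro n m hnm
    induction m, hnm using Nat.le_induction with
    | base => exact ⟨subset_rfl, subset_rfl⟩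
    | succ m _ ih =>
      have h1 := (hsd m).2.2.2.2.2.2
      exact ⟨h1.1.trans ih.1, h1.2.1.trans ih.2⟩
  exact no_seq hf (fun n => (d n).1) (fun n => (d n).2.1) (fun n => (d n).2.2.1)
    (fun n => (d n).2.2.2) (fun n => (hsd n).2.2.2.2.1) (fun n => (hsd n).2.2.2.2.2.1)
    (fun k n hkn y => (hsd k).2.2.2.2.2.2.2.2.2 _ ((hmono (k + 1) n hkn).1 (hsd n).2.1) y)
    (Or.inr fun k n hkn => (hsd k).2.2.2.2.2.2.2.2.1 _ ((hmono (k + 1) n hkn).2 (hsd n).2.2.1) _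
      ((hmono (k + 1) n hkn).2 (hsd n).2.2.2.1))

/-- If `f (x0, ·)` is constant, then the restrictions of the maps `f (·, y)` to some neighbourhood
of `x0` form a finite set. -/
theorem exists_finite [CompactSpace X] [CompactSpace Y]
    (hf : Continuous (Function.uncurry f)) (x0 : X) (w0 : Bw) (h0 : ∀ y, f x0 y = w0) :
    ∃ U ∈ 𝓝 x0, (range fun (y : Y) (x : U) => f x y).Finite := by
  by_contra hne
  push Not at hne
  obtain ⟨U₁, hU₁, hst⟩ := exists_stable hf x0 w0 h0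
  -- an infinite set of points with different maps
  have hinf := hne U₁ hU₁
  obtain ⟨S₁, hS₁⟩ : ∃ S : Set Y, S.Infinite ∧ ∀ y ∈ S, ∀ z ∈ S, y ≠ z →
      ∃ x ∈ U₁, f x y ≠ f x z := by
    let F : Y → (U₁ → Bw) := fun (y : Y) (x : U₁) => f x y
    have hsec : ∀ r : range F, ∃ y, F y = r := fun r => r.2
    choose σ hσ using hsec
    have hσi : Function.Injective σ := fun a b hab => Subtype.ext (by rw [← hσ a, ← hσ b, hab])
    have : Infinite (range F) := hinf.to_subtype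
    refine ⟨range σ, infinite_range_of_injective hσi, ?_⟩
    rintro _ ⟨a, rfl⟩ _ ⟨b, rfl⟩ hab
    by_contra hne'
    push Not at hne'
    apply hab
    congr 1
    apply Subtype.ext
    rw [← hσ a, ← hσ b]
    funext x
    exact hne' x x.2
  obtain ⟨hS₁i, hS₁⟩ := hS₁
  have hstep : ∀ s : Set X × Set Y, (s.1 ∈ 𝓝 x0 ∧ s.1 ⊆ U₁ ∧ s.2.Infinite ∧ s.2 ⊆ S₁) →
      ∃ (d : X × Y × Set ℕ × Set ℕ) (s' : Set X × Set Y),
      (d.1 ∈ s.1 ∧ d.2.1 ∈ s.2 ∧ Disjoint d.2.2.1 d.2.2.2 ∧ d.2.2.2 ∈ f d.1 d.2.1 ∧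
        s'.1 ⊆ s.1 ∧ s'.2 ⊆ s.2 ∧ (∀ y ∈ s'.2, d.2.2.1 ∈ f d.1 y) ∧
        ∀ x ∈ s'.1, ∀ y, d.2.2.1 ∪ d.2.2.2 ∉ f x y) ∧
      (s'.1 ∈ 𝓝 x0 ∧ s'.1 ⊆ U₁ ∧ s'.2.Infinite ∧ s'.2 ⊆ S₁) := by
    rintro ⟨U, S⟩ ⟨hU, hUU, hSi, hSS⟩
    simp only at hU hUU hSi hSS
    obtain ⟨x, hx, hxi⟩ := exists_infinite_valued hf x0 w0 h0 hU hSi (fun V hV hVU y hy z hz hyz => by
      by_contra hne'
      push Not at hne'
      obtain ⟨x, hx, hxyz⟩ := hS₁ y (hSS hy) z (hSS hz) hyz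
      exact hxyz (hst V hV (hVU.trans hUU) y z hne' x hx))
    obtain ⟨c, e, hce, hw, hc, p, ⟨y, hy, rfl⟩, hep⟩ := exists_split hxi w0
    have ht := tube hf x0 (c ∪ e) (fun y => by rw [h0 y]; exact hw)
    refine ⟨⟨x, y, c, e⟩, ⟨U ∩ {x | ∀ y, c ∪ e ∉ f x y}, {y ∈ S | c ∈ f x y}⟩,
      ⟨hx, hy, hce, hep, inter_subset_left, sep_subset _ _, fun y hy => hy.2, fun x hx => hx.2⟩,
      inter_mem hU ht, inter_subset_left.trans hUU, ?_, (sep_subset _ _).trans hSS⟩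
    intro hfin
    refine hc ((hfin.image (f x)).subset ?_)
    rintro _ ⟨⟨y, hy, rfl⟩, hcy⟩
    exact ⟨y, ⟨hy, hcy⟩, rfl⟩
  obtain ⟨s, d, -, hsd⟩ := exists_chain
    (fun s : Set X × Set Y => s.1 ∈ 𝓝 x0 ∧ s.1 ⊆ U₁ ∧ s.2.Infinite ∧ s.2 ⊆ S₁)
    (fun s (d : X × Y × Set ℕ × Set ℕ) s' => d.1 ∈ s.1 ∧ d.2.1 ∈ s.2 ∧
      Disjoint d.2.2.1 d.2.2.2 ∧ d.2.2.2 ∈ f d.1 d.2.1 ∧
        s'.1 ⊆ s.1 ∧ s'.2 ⊆ s.2 ∧ (∀ y ∈ s'.2, d.2.2.1 ∈ f d.1 y) ∧
        ∀ x ∈ s'.1, ∀ y, d.2.2.1 ∪ d.2.2.2 ∉ f x y)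
    (U₁, S₁) ⟨hU₁, subset_rfl, hS₁i, subset_rfl⟩ hstep
  have hmono : ∀ n m, n ≤ m → (s m).1 ⊆ (s n).1 ∧ (s m).2 ⊆ (s n).2 := by
    intro n m hnm
    induction m, hnm using Nat.le_induction with
    | base => exact ⟨subset_rfl, subset_rfl⟩
    | succ m _ ih =>
      have h1 := (hsd m).2.2.2.2.2
      exact ⟨h1.1.trans ih.1, h1.2.1.trans ih.2⟩
  have hnot : ∀ k n, k < n → ∀ y, (d k).2.2.1 ∪ (d k).2.2.2 ∉ f (d n).1 y := fun k n hkn y =>
    (hsd k).2.2.2.2.2.2.2.2 _ ((hmono (k + 1) n hkn).1 (hsd n).2.1) y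
  have hc : ∀ k n, k < n → (d k).2.2.1 ∈ f (d k).1 (d n).2.1 := fun k n hkn =>
    (hsd k).2.2.2.2.2.2.2.1 _ ((hmono (k + 1) n hkn).2 (hsd n).2.2.1)
  let r : ℕ → Set ℕ := fun n => (d n).2.2.1 ∪ (d n).2.2.2
  let b : Set ℕ := ⋃ n, (d n).2.2.2 \ ⋃ k ∈ Iio n, r k
  have hb1 : ∀ n, b ∈ f (d n).1 (d n).2.1 := by
    intro n
    refine Filter.mem_of_superset ?_ (subset_iUnion _ n)
    exact (Ultrafilter.sdiff_mem_iff _).2 ⟨(hsd n).2.2.2.2.1,
      iUnion_lt_notMem fun k hk => hnot k n hk _⟩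
  have hb2 : ∀ n m, n < m → b ∉ f (d n).1 (d m).2.1 := by
    intro n m hnm hb
    have h1 : (d n).2.2.1 \ ⋃ k ∈ Iio n, r k ∈ f (d n).1 (d m).2.1 :=
      (Ultrafilter.sdiff_mem_iff _).2 ⟨hc n m hnm, iUnion_lt_notMem fun k hk => hnot k n hk _⟩
    obtain ⟨i, hi1, hi2, hi3⟩ := Ultrafilter.nonempty_of_mem (Filter.inter_mem hb h1)
    obtain ⟨l, hl1, hl2⟩ := mem_iUnion.1 hi1
    rcases lt_trichotomy l n with h | h | h
    · exact hi3 (mem_biUnion (show l ∈ Iio n from h) (Or.inr hl1))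
    · subst h
      exact Set.disjoint_left.1 (hsd l).2.2.2.1 hi2 hl1
    · exact hl2 (mem_biUnion (show n ∈ Iio l from h) (Or.inl hi2))
  obtain ⟨i, j, hij, h1, -⟩ := pigeon hf b (fun n => (d n).2.1) (fun n => (d n).2.1)
  exact hb2 i j hij ((h1 _).1 (hb1 i))

/-! ### The second case -/

theorem not_both [CompactSpace X] [CompactSpace Y] (hf : Continuous (Function.uncurry f))
    (x0 : X) (y0 : Y) (h1 : ¬ ∀ᶠ y in 𝓝 y0, f x0 y = f x0 y0)
    (h2 : ¬ ∀ᶠ x in 𝓝 x0, f x y0 = f x0 y0) : False := by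
  have hstep : ∀ s : Set X × Set Y, (s.1 ∈ 𝓝 x0 ∧ s.2 ∈ 𝓝 y0) →
      ∃ (d : X × Y × Set ℕ) (s' : Set X × Set Y),
      (d.1 ∈ s.1 ∧ d.2.1 ∈ s.2 ∧ s'.1 ⊆ s.1 ∧ s'.2 ⊆ s.2 ∧ (∀ y ∈ s'.2, d.2.2 ∈ f d.1 y) ∧
        (∀ x ∈ s'.1, d.2.2 ∈ f x d.2.1) ∧ ∀ x ∈ s'.1, ∀ y ∈ s'.2, d.2.2 ∉ f x y) ∧
      (s'.1 ∈ 𝓝 x0 ∧ s'.2 ∈ 𝓝 y0) := by
    rintro ⟨U, V⟩ ⟨hU, hV⟩
    simp only at hU hV
    obtain ⟨y, hyV, hy⟩ : ∃ y ∈ V, f x0 y ≠ f x0 y0 := by
      by_contra hne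
      push Not at hne
      exact h1 (Filter.mem_of_superset hV hne)
    obtain ⟨x, hxU, hx⟩ : ∃ x ∈ U, f x y0 ≠ f x0 y0 := by
      by_contra hne
      push Not at hne
      exact h2 (Filter.mem_of_superset hU hne)
    obtain ⟨g, hg1, hg2⟩ := exists_mem_notMem hy
    obtain ⟨g', hg'1, hg'2⟩ := exists_mem_notMem hx
    have h3 : g ∪ g' ∉ f x0 y0 := by
      rw [Ultrafilter.union_mem_iff]
      exact fun h => h.elim hg2 hg'2
    have h4 : ∀ᶠ z : X × Y in 𝓝 (x0, y0), g ∪ g' ∉ f z.1 z.2 :=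
      (isOpen_notMem hf (g ∪ g')).mem_nhds h3
    rw [nhds_prod_eq] at h4
    obtain ⟨U', hU', V', hV', hUV⟩ := Filter.eventually_prod_iff.1 h4
    have h5 : ∀ᶠ x' in 𝓝 x0, g ∪ g' ∈ f x' y := by
      refine (isOpen_mem (F := fun x' => f x' y) (hf.comp (continuous_id.prodMk continuous_const))
        (g ∪ g')).mem_nhds ?_
      exact Filter.mem_of_superset hg1 subset_union_left
    have h6 : ∀ᶠ y' in 𝓝 y0, g ∪ g' ∈ f x y' := by
      refine (isOpen_mem (F := fun y' => f x y') (hf.comp (continuous_const.prodMk continuous_id))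
        (g ∪ g')).mem_nhds ?_
      exact Filter.mem_of_superset hg'1 subset_union_right
    refine ⟨⟨x, y, g ∪ g'⟩, ⟨U ∩ {x | U' x} ∩ {x' | g ∪ g' ∈ f x' y},
      V ∩ {y | V' y} ∩ {y' | g ∪ g' ∈ f x y'}⟩, ⟨hxU, hyV, ?_, ?_, ?_, ?_, ?_⟩,
      inter_mem (inter_mem hU hU') h5, inter_mem (inter_mem hV hV') h6⟩
    · exact inter_subset_left.trans inter_subset_left
    · exact inter_subset_left.trans inter_subset_left
    · exact fun y hy => hy.2
    · exact fun x hx => hx.2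
    · exact fun x hx y hy => hUV hx.1.2 hy.1.2
  obtain ⟨s, d, -, hsd⟩ := exists_chain (fun s : Set X × Set Y => s.1 ∈ 𝓝 x0 ∧ s.2 ∈ 𝓝 y0)
    (fun s (d : X × Y × Set ℕ) s' => d.1 ∈ s.1 ∧ d.2.1 ∈ s.2 ∧ s'.1 ⊆ s.1 ∧ s'.2 ⊆ s.2 ∧
      (∀ y ∈ s'.2, d.2.2 ∈ f d.1 y) ∧
        (∀ x ∈ s'.1, d.2.2 ∈ f x d.2.1) ∧ ∀ x ∈ s'.1, ∀ y ∈ s'.2, d.2.2 ∉ f x y)
    (univ, univ) ⟨univ_mem, univ_mem⟩ hstep
  have hmono : ∀ n m, n ≤ m → (s m).1 ⊆ (s n).1 ∧ (s m).2 ⊆ (s n).2 := by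
    intro n m hnm
    induction m, hnm using Nat.le_induction with
    | base => exact ⟨subset_rfl, subset_rfl⟩
    | succ m _ ih =>
      have h1 := (hsd m).2.2.2
      exact ⟨h1.1.trans ih.1, h1.2.1.trans ih.2⟩
  have hx : ∀ k n, k < n → (d n).1 ∈ (s (k + 1)).1 := fun k n hkn =>
    (hmono (k + 1) n hkn).1 (hsd n).2.1
  have hy : ∀ k n, k < n → (d n).2.1 ∈ (s (k + 1)).2 := fun k n hkn =>
    (hmono (k + 1) n hkn).2 (hsd n).2.2.1
  have hA : ∀ n m, n < m → (d n).2.2 ∈ f (d n).1 (d m).2.1 := fun n m hnm =>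
    (hsd n).2.2.2.2.2.1 _ (hy n m hnm)
  have hB : ∀ n m, n < m → (d n).2.2 ∈ f (d m).1 (d n).2.1 := fun n m hnm =>
    (hsd n).2.2.2.2.2.2.1 _ (hx n m hnm)
  have hC : ∀ k n m, k < n → k < m → (d k).2.2 ∉ f (d n).1 (d m).2.1 := fun k n m hn hm =>
    (hsd k).2.2.2.2.2.2.2 _ (hx k n hn) _ (hy k m hm)
  let g' : ℕ → Set ℕ := fun n => (d n).2.2 \ ⋃ k ∈ Iio n, (d k).2.2
  let b : Set ℕ := ⋃ n, g' (2 * n)
  have hA' : ∀ n m, n < m → g' n ∈ f (d n).1 (d m).2.1 := fun n m hnm =>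
    (Ultrafilter.sdiff_mem_iff _).2 ⟨hA n m hnm,
      iUnion_lt_notMem fun k hk => hC k n m hk (hk.trans hnm)⟩
  have hB' : ∀ n m, n < m → g' n ∈ f (d m).1 (d n).2.1 := fun n m hnm =>
    (Ultrafilter.sdiff_mem_iff _).2 ⟨hB n m hnm,
      iUnion_lt_notMem fun k hk => hC k m n (hk.trans hnm) hk⟩
  have hfin := finite_sections hf b
  have hfin2 : (range fun i => {y | b ∈ f (d (2 * i)).1 y}).Finite :=
    hfin.subset (by rintro _ ⟨i, rfl⟩; exact ⟨_, rfl⟩)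
  obtain ⟨i, j, hij, h3⟩ := exists_lt_eq hfin2
  have h4 : b ∈ f (d (2 * i)).1 (d (2 * i + 1)).2.1 :=
    Filter.mem_of_superset (hA' (2 * i) (2 * i + 1) (by omega))
      (subset_iUnion (fun n => g' (2 * n)) i)
  have h5 : b ∈ f (d (2 * j)).1 (d (2 * i + 1)).2.1 := by
    have h6 : (d (2 * i + 1)).2.1 ∈ {y | b ∈ f (d (2 * i)).1 y} := h4
    rw [h3] at h6
    exact h6
  have h6 := hB' (2 * i + 1) (2 * j) (by omega)
  obtain ⟨m, hm1, hm2⟩ := Ultrafilter.nonempty_of_mem (Filter.inter_mem h5 h6)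
  obtain ⟨l, hl⟩ := mem_iUnion.1 hm1
  exact Set.disjoint_left.1 (disjoint_diff (fun n => (d n).2.2) (i := 2 * l) (j := 2 * i + 1)
    (by omega)) hl hm2

/-! ### The main theorems -/

/-- The case when `f (x0, ·)` is locally constant at `y0`. -/
theorem two_factor_aux [CompactSpace X] [CompactSpace Y] [RegularSpace Y]
    (hf : Continuous (Function.uncurry f)) (x0 : X) (y0 : Y)
    (h : ∀ᶠ y in 𝓝 y0, f x0 y = f x0 y0) :
    ∃ U ∈ 𝓝 x0, ∃ V ∈ 𝓝 y0, ∀ x ∈ U, ∀ y ∈ V, f x y = f x y0 := by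
  obtain ⟨C, hC, hCc, hCh⟩ := exists_mem_nhds_isClosed_subset h
  have : CompactSpace C := isCompact_iff_compactSpace.1 hCc.isCompact
  have hf' : Continuous (Function.uncurry fun (x : X) (y : C) => f x y) :=
    hf.comp (continuous_fst.prodMk (continuous_subtype_val.comp continuous_snd))
  obtain ⟨U, hU, hfin⟩ := exists_finite hf' x0 (f x0 y0) (fun y => hCh y.2)
  have hy0 : y0 ∈ C := mem_of_mem_nhds hC
  let F : C → (U → Bw) := fun y x => f x y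
  have hF : Continuous F := continuous_pi fun x =>
    hf.comp (continuous_const.prodMk continuous_subtype_val)
  have h1 : IsClosed (F ⁻¹' (range F \ {F ⟨y0, hy0⟩})) :=
    (hfin.subset sdiff_subset).isClosed.preimage hF
  have h2 : (F ⁻¹' (range F \ {F ⟨y0, hy0⟩}))ᶜ ∈ 𝓝 (⟨y0, hy0⟩ : C) :=
    h1.isOpen_compl.mem_nhds fun h3 => h3.2 rfl
  rw [nhds_subtype_eq_comap, Filter.mem_comap] at h2
  obtain ⟨V, hV, hVC⟩ := h2
  refine ⟨U, hU, V ∩ C, inter_mem hV hC, fun x hx y hy => ?_⟩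
  have h3 := hVC (show (⟨y, hy.2⟩ : C) ∈ Subtype.val ⁻¹' V from hy.1)
  have h4 : F ⟨y, hy.2⟩ = F ⟨y0, hy0⟩ := by
    by_contra hne
    exact h3 ⟨⟨_, rfl⟩, hne⟩
  exact congrFun h4 ⟨x, hx⟩

/-- A continuous map from the product of two compact spaces to `βω` depends locally on one
coordinate. -/
theorem two_factor [CompactSpace X] [CompactSpace Y] [RegularSpace X] [RegularSpace Y]
    (hf : Continuous (Function.uncurry f)) (x0 : X) (y0 : Y) :
    (∃ U ∈ 𝓝 x0, ∃ V ∈ 𝓝 y0, ∀ x ∈ U, ∀ y ∈ V, f x y = f x y0) ∨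
      ∃ U ∈ 𝓝 x0, ∃ V ∈ 𝓝 y0, ∀ x ∈ U, ∀ y ∈ V, f x y = f x0 y := by
  by_cases h1 : ∀ᶠ y in 𝓝 y0, f x0 y = f x0 y0
  · exact Or.inl (two_factor_aux hf x0 y0 h1)
  · by_cases h2 : ∀ᶠ x in 𝓝 x0, f x y0 = f x0 y0
    · right
      obtain ⟨V, hV, U, hU, hUV⟩ := two_factor_aux (f := fun y x => f x y)
        (hf.comp continuous_swap) y0 x0 h2
      exact ⟨U, hU, V, hV, fun x hx y hy => hUV y hy x hx⟩
    · exact (not_both hf x0 y0 h1 h2).elim

end topology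

/-- A continuous map from a finite power of a compact space to `βω` depends locally on one
coordinate. -/
theorem n_factor {ι X : Type*} [Finite ι] [Nonempty ι] [TopologicalSpace X] [CompactSpace X]
    [RegularSpace X] {f : (ι → X) → Bw} (hf : Continuous f) (c : ι → X) :
    ∃ j, ∃ U ∈ 𝓝 c, ∀ v ∈ U, ∀ w ∈ U, v j = w j → f v = f w := by
  classical
  have key : ∀ s : Set ι, s.Finite →
      (∃ U ∈ 𝓝 c, ∀ v ∈ U, ∀ w ∈ U, (∀ i ∈ s, v i = w i) → f v = f w) →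
      ∃ j, ∃ U ∈ 𝓝 c, ∀ v ∈ U, ∀ w ∈ U, v j = w j → f v = f w := by
    intro s hs
    induction s, hs using Set.Finite.induction_on with
    | empty =>
      rintro ⟨U, hU, h⟩
      exact ⟨Classical.arbitrary ι, U, hU, fun v hv w hw _ => h v hv w hw (by simp)⟩
    | @insert i t _ _ ih =>
      rintro ⟨U, hU, h⟩
      have hG : Continuous (Function.uncurry fun (u : X) (v : ι → X) =>
          f (Function.update v i u)) :=
        hf.comp (continuous_snd.update i continuous_fst)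
      rcases two_factor hG (c i) c with ⟨A, hA, V, hV, hAV⟩ | ⟨A, hA, V, hV, hAV⟩
      · refine ⟨i, V ∩ {v | v i ∈ A}, inter_mem hV ((continuous_apply i).continuousAt hA),
          fun v hv w hw hvw => ?_⟩
        have h1 := hAV (v i) hv.2 v hv.1
        have h2 := hAV (w i) hw.2 w hw.1
        simp only [Function.update_eq_self] at h1 h2
        rw [h1, h2, hvw]
      · apply ih
        have hcont : ContinuousAt (fun v : ι → X => Function.update v i (c i)) c :=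
          (continuous_id.update i continuous_const).continuousAt
        have hU' : (fun v : ι → X => Function.update v i (c i)) ⁻¹' U ∈ 𝓝 c :=
          hcont (by simpa using hU)
        refine ⟨V ∩ {v | v i ∈ A} ∩ (fun v : ι → X => Function.update v i (c i)) ⁻¹' U,
          inter_mem (inter_mem hV ((continuous_apply i).continuousAt hA)) hU',
          fun v hv w hw hvw => ?_⟩
        have h1 := hAV (v i) hv.1.2 v hv.1.1
        have h2 := hAV (w i) hw.1.2 w hw.1.1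
        simp only [Function.update_eq_self] at h1 h2
        rw [h1, h2]
        refine h _ hv.2 _ hw.2 fun k hk => ?_
        by_cases hki : k = i
        · subst hki
          simp
        · show Function.update v i (c i) k = Function.update w i (c i) k
          rw [Function.update_of_ne hki, Function.update_of_ne hki]
          exact hvw k (hk.resolve_left hki)
  exact key univ (Set.toFinite _) ⟨univ, univ_mem, fun v _ w _ h => by
    rw [funext fun i => h i (mem_univ i)]⟩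

end Pool.Agent.H180.OneCoord
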